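import Mathlib

/-!
# General position of colour functions

`Bad J m e` is the set of families of `m`-vectors `a l` (`l ∈ J`) in which the numbers of
coincidences `|A l| - 1` add up to at least `e`.  If `Q` is a compact space embedded in `ℝ^s` and
`Y l : Q → X` are injective maps with disjoint images, then the maps `g : X → ℝ^m` for which no
family `g ∘ Y` is in `Bad J m (s + 1)` form a dense open set.
-/

open Set Module

namespace Pool.Agent.Lib_helper24.BorsukGen

/-- Families with at least `e` coincidences. -/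
def Bad (J : Type) [Fintype J] (m e : ℕ) : Set (J → Fin m → ℝ) :=
  {a | ∃ A : J → Finset (Fin m), (∀ l, (A l).Nonempty ∧ ∀ i ∈ A l, ∀ j ∈ A l, a l i = a l j) ∧
    e ≤ ∑ l, ((A l).card - 1)}

theorem isClosed_bad (J : Type) [Fintype J] (m e : ℕ) : IsClosed (Bad J m e) := by
  classical
  have : Bad J m e = ⋃ A : {A : J → Finset (Fin m) // (∀ l, (A l).Nonempty) ∧
      e ≤ ∑ l, ((A l).card - 1)}, {a | ∀ l, ∀ i ∈ A.1 l, ∀ j ∈ A.1 l, a l i = a l j} := by
    ext a
    simp only [Bad, Set.mem_ofPred_eq, mem_iUnion, Subtype.exists, exists_prop]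
    constructor
    · rintro ⟨A, h1, h2⟩
      exact ⟨A, ⟨fun l => (h1 l).1, h2⟩, fun l => (h1 l).2⟩
    · rintro ⟨A, ⟨h1, h2⟩, h3⟩
      exact ⟨A, fun l => ⟨h1 l, h3 l⟩, h2⟩
  rw [this]
  refine isClosed_iUnion_of_finite fun A => ?_
  simp only [Set.ofPred_forall]
  refine isClosed_iInter fun l => isClosed_iInter fun i => isClosed_iInter fun _ =>
    isClosed_iInter fun j => isClosed_iInter fun _ => ?_
  exact isClosed_eq (by fun_prop) (by fun_prop)

/-- The index set of the free coordinates. -/
abbrev FreeIdx {J : Type} {m : ℕ} (A : J → Finset (Fin m)) (r : J → Fin m) : Type :=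
  {x : J × Fin m // x.2 ∉ (A x.1).erase (r x.1)}

theorem card_freeIdx {J : Type} [Fintype J] [DecidableEq J] {m : ℕ} (A : J → Finset (Fin m))
    (r : J → Fin m) (hr : ∀ l, r l ∈ A l) :
    Fintype.card (FreeIdx A r) + ∑ l, ((A l).card - 1) = Fintype.card J * m := by
  have h1 : ∑ l, ((A l).card - 1) =
      (Finset.univ.filter fun x : J × Fin m => x.2 ∈ (A x.1).erase (r x.1)).card := by
    rw [Finset.card_filter, Fintype.sum_prod_type]
    refine Finset.sum_congr rfl fun l _ => ?_
    rw [← Finset.card_filter]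
    have : (Finset.univ.filter fun i => (l, i).2 ∈ (A (l, i).1).erase (r (l, i).1)) =
        (A l).erase (r l) := by
      ext i; simp
    rw [this, Finset.card_erase_of_mem (hr l)]
  have h2 : Fintype.card (FreeIdx A r) =
      (Finset.univ.filter fun x : J × Fin m => ¬ x.2 ∈ (A x.1).erase (r x.1)).card := by
    rw [Fintype.card_subtype]
  rw [h1, h2, add_comm, Finset.card_filter_add_card_filter_not]
  simp

/-- The linear parametrisation of the families which are constant on the sets `A l`. -/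
noncomputable def par {J : Type} {m : ℕ} (A : J → Finset (Fin m)) (r : J → Fin m)
    (b : FreeIdx A r → ℝ) : J → Fin m → ℝ := fun l i =>
  if h : i ∈ (A l).erase (r l) then b ⟨(l, r l), by simp⟩ else b ⟨(l, i), h⟩

theorem contDiff_par {J : Type} [Fintype J] {m : ℕ} (A : J → Finset (Fin m)) (r : J → Fin m) :
    ContDiff ℝ 1 (par A r) := by
  rw [contDiff_pi]
  intro l
  rw [contDiff_pi]
  intro i
  unfold par
  by_cases h : i ∈ (A l).erase (r l)
  · simp only [h, dite_true]
    exact contDiff_apply ℝ ℝ _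
  · simp only [h, dite_false]
    exact contDiff_apply ℝ ℝ _

theorem par_eq {J : Type} {m : ℕ} {A : J → Finset (Fin m)} {r : J → Fin m}
    (hr : ∀ l, r l ∈ A l) {a : J → Fin m → ℝ} (ha : ∀ l, ∀ i ∈ A l, ∀ j ∈ A l, a l i = a l j) :
    par A r (fun x => a x.1.1 x.1.2) = a := by
  funext l i
  unfold par
  by_cases h : i ∈ (A l).erase (r l)
  · simp only [h, dite_true]
    exact ha l _ (hr l) _ (Finset.mem_of_mem_erase h)
  · simp only [h, dite_false]

/-- The translates of a `C¹` image of `ℝ^s` hitting a bad family are rare. -/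
theorem dense_good {J : Type} [Fintype J] {m s : ℕ}
    (h : (Fin s → ℝ) → (J → Fin m → ℝ)) (hh : ContDiff ℝ 1 h) :
    Dense {v : J → Fin m → ℝ | ∃ t, h t + v ∈ Bad J m (s + 1)}ᶜ := by
  classical
  have hfr : finrank ℝ (J → Fin m → ℝ) = Fintype.card J * m := by
    rw [Module.finrank_pi_fintype]; simp
  have hbd : ∀ A : J → Finset (Fin m), ∑ l, ((A l).card - 1) ≤ Fintype.card J * m := fun A => by
    have h1 : ∀ l, (A l).card ≤ m := fun l => by simpa using (A l).card_le_univ
    have : ∑ l, ((A l).card - 1) ≤ ∑ _l : J, m :=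
      Finset.sum_le_sum fun l _ => le_trans (Nat.sub_le _ _) (h1 l)
    simpa using this
  by_cases hpos : Fintype.card J * m = 0
  · have : {v : J → Fin m → ℝ | ∃ t, h t + v ∈ Bad J m (s + 1)} = ∅ := by
      ext v
      simp only [Set.mem_ofPred_eq, mem_empty_iff_false, iff_false]
      rintro ⟨t, A, hA, hs⟩
      have := hbd A
      omega
    rw [this]
    simp
  · apply dense_compl_of_dimH_lt_finrank
    -- the index type of the pieces
    let I := {A : J → Finset (Fin m) // (∀ l, (A l).Nonempty) ∧ s + 1 ≤ ∑ l, ((A l).card - 1)}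
    let r : I → J → Fin m := fun A l => (A.2.1 l).choose
    have hr : ∀ (A : I) l, r A l ∈ A.1 l := fun A l => (A.2.1 l).choose_spec
    let Ψ : (A : I) → (FreeIdx A.1 (r A) → ℝ) × (Fin s → ℝ) → (J → Fin m → ℝ) :=
      fun A x => par A.1 (r A) x.1 - h x.2
    have hΨ : ∀ A, ContDiff ℝ 1 (Ψ A) := fun A =>
      ((contDiff_par A.1 (r A)).comp contDiff_fst).sub (hh.comp contDiff_snd)
    have hsub : {v : J → Fin m → ℝ | ∃ t, h t + v ∈ Bad J m (s + 1)} ⊆ ⋃ A, range (Ψ A) := by
      rintro v ⟨t, A, hA, hs⟩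
      let A' : I := ⟨A, fun l => (hA l).1, hs⟩
      refine mem_iUnion.2 ⟨A', ⟨(fun x => (h t + v) x.1.1 x.1.2, t), ?_⟩⟩
      change par A (r A') (fun x => (h t + v) x.1.1 x.1.2) - h t = v
      rw [par_eq (hr A') (fun l => (hA l).2)]
      abel
    have hdim : ∀ A, dimH (range (Ψ A)) ≤ ((Fintype.card J * m - 1 : ℕ) : ENNReal) := by
      intro A
      refine le_trans (hΨ A).dimH_range_le ?_
      have h1 := card_freeIdx A.1 (r A) (hr A)
      have h2 := A.2.2
      have h3 : finrank ℝ ((FreeIdx A.1 (r A) → ℝ) × (Fin s → ℝ)) =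
          Fintype.card (FreeIdx A.1 (r A)) + s := by
        rw [Module.finrank_prod]; simp
      rw [h3]
      exact_mod_cast (by omega : Fintype.card (FreeIdx A.1 (r A)) + s ≤ Fintype.card J * m - 1)
    calc dimH {v : J → Fin m → ℝ | ∃ t, h t + v ∈ Bad J m (s + 1)}
        ≤ dimH (⋃ A, range (Ψ A)) := dimH_mono hsub
      _ = ⨆ A, dimH (range (Ψ A)) := dimH_iUnion _
      _ ≤ ((Fintype.card J * m - 1 : ℕ) : ENNReal) := iSup_le hdim
      _ < (finrank ℝ (J → Fin m → ℝ) : ENNReal) := by
          rw [hfr]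
          exact_mod_cast (by omega : Fintype.card J * m - 1 < Fintype.card J * m)

/-- The subalgebra of the functions which are `C¹` functions of the coordinates `π`. -/
def c1Alg {Q : Type} [TopologicalSpace Q] {s : ℕ} (π : Q → Fin s → ℝ) :
    Subalgebra ℝ C(Q, ℝ) where
  carrier := {φ | ∃ h : (Fin s → ℝ) → ℝ, ContDiff ℝ 1 h ∧ ∀ q, φ q = h (π q)}
  mul_mem' := by
    rintro φ ψ ⟨h, hh, h1⟩ ⟨k, hk, k1⟩
    exact ⟨fun x => h x * k x, hh.mul hk, fun q => by simp [h1, k1]⟩
  add_mem' := by
    rintro φ ψ ⟨h, hh, h1⟩ ⟨k, hk, k1⟩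
    exact ⟨fun x => h x + k x, hh.add hk, fun q => by simp [h1, k1]⟩
  algebraMap_mem' c := ⟨fun _ => c, contDiff_const, fun q => by simp⟩

theorem c1Alg_separates {Q : Type} [TopologicalSpace Q] {s : ℕ} {π : Q → Fin s → ℝ}
    (hπ : Continuous π) (hi : Function.Injective π) : (c1Alg π).SeparatesPoints := by
  intro x y hxy
  obtain ⟨i, hi'⟩ : ∃ i, π x i ≠ π y i := by
    by_contra hc
    push Not at hc
    exact hxy (hi (funext hc))
  exact ⟨fun q => π q i, ⟨⟨fun q => π q i, by fun_prop⟩,
    ⟨fun z => z i, contDiff_apply ℝ ℝ i, fun q => rfl⟩, rfl⟩, hi'⟩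

/-- **Density of general position.** -/
theorem exists_near {Q X J : Type} [TopologicalSpace Q] [CompactSpace Q] [TopologicalSpace X]
    [T2Space X] [CompactSpace X] [Fintype J] [TopologicalSpace J] [DiscreteTopology J] {s m : ℕ}
    (π : Q → Fin s → ℝ) (hπ : Continuous π) (hπi : Function.Injective π)
    (Y : J → Q → X) (hY : ∀ l, Continuous (Y l))
    (hYi : ∀ l l' q q', Y l q = Y l' q' → l = l' ∧ q = q')
    (f : C(X, Fin m → ℝ)) {ε : ℝ} (hε : 0 < ε) :
    ∃ g : C(X, Fin m → ℝ), ‖g - f‖ < ε ∧ ∀ q, (fun l => g (Y l q)) ∉ Bad J m (s + 1) := by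
  classical
  have hsep := c1Alg_separates hπ hπi
  have happ : ∀ (l : J) (i : Fin m), ∃ h : (Fin s → ℝ) → ℝ, ContDiff ℝ 1 h ∧
      ∀ q, |h (π q) - f (Y l q) i| < ε / 4 := by
    intro l i
    obtain ⟨⟨φ, h, hh, h1⟩, h2⟩ :=
      ContinuousMap.exists_mem_subalgebra_near_continuous_of_separatesPoints (c1Alg π) hsep
        (fun q => f (Y l q) i) (by have := hY l; fun_prop) (ε / 4) (by positivity)
    refine ⟨h, hh, fun q => ?_⟩
    have := h2 q
    simp only [Real.norm_eq_abs] at this
    rw [← h1]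
    exact this
  choose h hh happ using happ
  have hd := dense_good (J := J) (m := m) (s := s) (fun t l i => h l i t)
    (by rw [contDiff_pi]; intro l; rw [contDiff_pi]; intro i; exact hh l i)
  obtain ⟨v, hv, hv2⟩ := hd.exists_dist_lt (0 : J → Fin m → ℝ) (show (0 : ℝ) < ε / 4 by positivity)
  have hvn : ∀ l i, |v l i| < ε / 4 := by
    intro l i
    rw [dist_comm, dist_zero_right] at hv2
    have h1 := norm_le_pi_norm v l
    have h2 := norm_le_pi_norm (v l) i
    rw [Real.norm_eq_abs] at h2
    linarith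
  have hvb : ∀ q, (fun l i => h l i (π q) + v l i) ∉ Bad J m (s + 1) := by
    intro q hq
    exact hv ⟨π q, hq⟩
  -- the closed embedding
  let e : J × Q → X := fun x => Y x.1 x.2
  have hec : Continuous e := by
    rw [continuous_prod_of_discrete_left]
    exact hY
  have hei : Function.Injective e := by
    rintro ⟨l, q⟩ ⟨l', q'⟩ hx
    obtain ⟨h1, h2⟩ := hYi l l' q q' hx
    rw [h1, h2]
  have hee : Topology.IsClosedEmbedding e := hec.isClosedEmbedding hei
  have hext : ∀ i : Fin m, ∃ w : BoundedContinuousFunction X ℝ, ‖w‖ ≤ ε / 2 ∧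
      ∀ l q, w (Y l q) = h l i (π q) + v l i - f (Y l q) i := by
    intro i
    have hcont : Continuous fun x : J × Q => h x.1 i (π x.2) + v x.1 i - f (Y x.1 x.2) i := by
      rw [continuous_prod_of_discrete_left]
      intro l
      have h1 : Continuous fun q => h l i (π q) := (hh l i).continuous.comp hπ
      have h2 := hY l
      have h3 : Continuous fun q => f (Y l q) i := by fun_prop
      have h4 : Continuous fun q => h l i (π q) + v l i - f (Y l q) i :=
        (h1.add continuous_const).sub h3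
      exact h4
    let u : BoundedContinuousFunction (J × Q) ℝ :=
      BoundedContinuousFunction.mkOfCompact ⟨_, hcont⟩
    obtain ⟨w, hw, hw2⟩ :=
      BoundedContinuousFunction.exists_extension_norm_eq_of_isClosedEmbedding u hee
    refine ⟨w, ?_, fun l q => ?_⟩
    · rw [hw]
      refine (BoundedContinuousFunction.norm_le (by positivity)).2 fun x => ?_
      have h1 := happ x.1 i x.2
      have h2 := hvn x.1 i
      change |h x.1 i (π x.2) + v x.1 i - f (Y x.1 x.2) i| ≤ ε / 2
      rw [abs_lt] at h1 h2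
      rw [abs_le]
      constructor <;> linarith
    · exact congrFun hw2 (l, q)
  choose w hw hw2 using hext
  refine ⟨⟨fun x i => f x i + w i x, by fun_prop⟩, ?_, fun q hq => ?_⟩
  · refine lt_of_le_of_lt ((ContinuousMap.norm_le _ (show (0 : ℝ) ≤ ε / 2 by positivity)).2 ?_)
      (by linarith)
    intro x
    refine (pi_norm_le_iff_of_nonneg (by positivity)).2 fun i => ?_
    have : ((⟨fun x i => f x i + w i x, by fun_prop⟩ : C(X, Fin m → ℝ)) - f) x i = w i x := by
      simp
    rw [this]
    exact ((w i).norm_coe_le_norm x).trans (hw i)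
  · apply hvb q
    convert hq using 3 with l i
    simp only [ContinuousMap.coe_mk]
    rw [hw2]
    ring

/-- **Openness of general position.** -/
theorem isOpen_good {Q X J : Type} [TopologicalSpace Q] [CompactSpace Q] [TopologicalSpace X]
    [T2Space X] [CompactSpace X] [Fintype J] {e m : ℕ}
    (Y : J → Q → X) (hY : ∀ l, Continuous (Y l)) :
    IsOpen {g : C(X, Fin m → ℝ) | ∀ q, (fun l => g (Y l q)) ∉ Bad J m e} := by
  have hcl : IsClosed {x : C(X, Fin m → ℝ) × Q | (fun l => x.1 (Y l x.2)) ∈ Bad J m e} := by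
    refine (isClosed_bad J m e).preimage ?_
    refine continuous_pi fun l => ?_
    exact Continuous.eval continuous_fst ((hY l).comp continuous_snd)
  have := isClosedMap_fst_of_compactSpace _ hcl
  rw [← isOpen_compl_iff] at this
  convert this using 1
  ext g
  simp

end Pool.Agent.Lib_helper24.BorsukGen
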