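import Pool.Agent.Lib_helper24.BorsukGen.Main

/-!
# Uniformly independent diameters form a general configuration
-/

open Set Module Metric Filter Topology
open scoped RealInnerProductSpace

namespace Pool.Agent.Lib_helper24.BorsukGen

set_option linter.unusedSectionVars false

section FixedPoint

variable {P : Type}

/-- Contraction principle for bounded functions, in elementary form. -/
theorem exists_fixed (Φ : (P → ℝ) → P → ℝ) {R : ℝ} (hR : 0 ≤ R)
    (h1 : ∀ s, (∀ p, |s p| ≤ R) → ∀ p, |Φ s p| ≤ R)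
    (h2 : ∀ s s', ∀ ρ, (∀ p, |s p| ≤ R) → (∀ p, |s' p| ≤ R) → (∀ p, |s p - s' p| ≤ ρ) →
      ∀ p, |Φ s p - Φ s' p| ≤ ρ / 2) :
    ∃ s : P → ℝ, (∀ p, |s p| ≤ R) ∧ ∀ p, Φ s p = s p := by
  let u : ℕ → P → ℝ := fun n => Φ^[n] 0
  have hu : ∀ n, u (n + 1) = Φ (u n) := fun n => Function.iterate_succ_apply' Φ n 0
  have hb : ∀ n p, |u n p| ≤ R := by
    intro n
    induction n with
    | zero => intro p; simpa [u] using hR
    | succ n ih => rw [hu]; exact h1 _ ih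
  have hd : ∀ n p, |u n p - u (n + 1) p| ≤ (2 * R) / 2 / 2 ^ n := by
    intro n
    induction n with
    | zero => 
      intro p
      have : u 0 p = 0 := rfl
      rw [this, zero_sub, abs_neg]
      simpa using hb 1 p
    | succ n ih =>
      intro p
      rw [hu (n + 1), hu n]
      have := h2 (u n) (u (n + 1)) _ (hb n) (hb (n + 1)) ih p
      rw [← hu n] at this ⊢
      refine this.trans (le_of_eq ?_)
      rw [pow_succ]; field_simp
  have hc : ∀ p, CauchySeq fun n => u n p := fun p =>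
    cauchySeq_of_le_geometric_two (C := 2 * R) fun n => by rw [Real.dist_eq]; exact hd n p
  choose s hs using fun p => cauchySeq_tendsto_of_complete (hc p)
  have hsR : ∀ p, |s p| ≤ R := fun p =>
    le_of_tendsto ((hs p).abs) (Eventually.of_forall fun n => hb n p)
  have hsu : ∀ n p, |u n p - s p| ≤ 2 * R / 2 ^ n := by
    intro n p
    rw [← Real.dist_eq]
    exact dist_le_of_le_geometric_two_of_tendsto (C := 2 * R)
      (fun n => by rw [Real.dist_eq]; exact hd n p) (hs p) n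
  refine ⟨s, hsR, fun p => ?_⟩
  have h3 : ∀ n, |Φ s p - s p| ≤ 2 * R / 2 ^ n := by
    intro n
    have h4 := h2 s (u n) _ hsR (hb n) (fun p => by rw [abs_sub_comm]; exact hsu n p) p
    rw [← hu n] at h4
    have h5 := hsu (n + 1) p
    have h6 : 2 * R / 2 ^ (n + 1) = 2 * R / 2 ^ n / 2 := by rw [pow_succ]; field_simp
    rw [h6] at h5
    calc |Φ s p - s p| = |(Φ s p - u (n + 1) p) + (u (n + 1) p - s p)| := by ring_nf
      _ ≤ |Φ s p - u (n + 1) p| + |u (n + 1) p - s p| := abs_add_le _ _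
      _ ≤ 2 * R / 2 ^ n := by linarith
  have h7 : Tendsto (fun n : ℕ => 2 * R / 2 ^ n) atTop (𝓝 0) := by
    have := (tendsto_pow_atTop_nhds_zero_of_lt_one (r := (1 / 2 : ℝ)) (by norm_num)
      (by norm_num)).const_mul (2 * R)
    simpa [div_eq_mul_inv, mul_assoc] using this
  have h8 : |Φ s p - s p| ≤ 0 := ge_of_tendsto' h7 h3
  exact sub_eq_zero.1 (abs_eq_zero.1 (le_antisymm h8 (abs_nonneg _)))

/-- Fixed points depend continuously on the map. -/
theorem fixed_close {Φ Φ' : (P → ℝ) → P → ℝ} {R α : ℝ} (hα : 0 ≤ α)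
    (h2 : ∀ s s', ∀ ρ, (∀ p, |s p| ≤ R) → (∀ p, |s' p| ≤ R) → (∀ p, |s p - s' p| ≤ ρ) →
      ∀ p, |Φ s p - Φ s' p| ≤ ρ / 2)
    (h3 : ∀ s p, |Φ s p - Φ' s p| ≤ α)
    {s s' : P → ℝ} (hs : ∀ p, |s p| ≤ R) (hs' : ∀ p, |s' p| ≤ R)
    (hf : ∀ p, Φ s p = s p) (hf' : ∀ p, Φ' s' p = s' p) (p : P) : |s p - s' p| ≤ 2 * α := by
  have key : ∀ n : ℕ, ∀ p, |s p - s' p| ≤ 2 * α + 2 * R / 2 ^ n := by
    intro n
    induction n with
    | zero =>
      intro p
      have h4 := hs p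
      have h5 := hs' p
      have h6 : |s p - s' p| ≤ |s p| + |s' p| := abs_sub _ _
      simp only [pow_zero, div_one]
      linarith
    | succ n ih =>
      intro p
      have h4 := h2 s s' _ hs hs' ih p
      have h5 := h3 s' p
      rw [hf p] at h4
      rw [hf' p] at h5
      have h6 : 2 * R / 2 ^ (n + 1) = 2 * R / 2 ^ n / 2 := by rw [pow_succ]; field_simp
      rw [h6]
      calc |s p - s' p| = |(s p - Φ s' p) + (Φ s' p - s' p)| := by ring_nf
        _ ≤ |s p - Φ s' p| + |Φ s' p - s' p| := abs_add_le _ _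
        _ ≤ _ := by linarith
  have h7 : Tendsto (fun n : ℕ => 2 * α + 2 * R / 2 ^ n) atTop (𝓝 (2 * α + 0)) := by
    refine Tendsto.const_add _ ?_
    have := (tendsto_pow_atTop_nhds_zero_of_lt_one (r := (1 / 2 : ℝ)) (by norm_num)
      (by norm_num)).const_mul (2 * R)
    simpa [div_eq_mul_inv, mul_assoc] using this
  rw [add_zero] at h7
  exact ge_of_tendsto' h7 fun n => key n p

end FixedPoint

variable {E : Type} [NormedAddCommGroup E] [InnerProductSpace ℝ E] [FiniteDimensional ℝ E]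

/-- The diameters of `K` are independent with constant `M`: for every diameter `{x, y}` there is a
vector `v` of length at most `M` with `⟪x - y, v⟫ = 1` which is orthogonal to `x - z` for all other
diameters `{x, z}` at `x`. -/
def IndepDiam (K : Set E) (D M : ℝ) : Prop :=
  ∀ x ∈ K, ∀ y ∈ K, dist x y = D → ∃ v : E, ‖v‖ ≤ M ∧ ⟪x - y, v⟫ = 1 ∧
    ∀ z ∈ K, dist x z = D → z ≠ y → ⟪x - z, v⟫ = 0

theorem IndepDiam.mono {K K₀ : Set E} {D M : ℝ} (h : IndepDiam K D M) (hK : K₀ ⊆ K) :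
    IndepDiam K₀ D M := by
  intro x hx y hy hxy
  obtain ⟨v, h1, h2, h3⟩ := h x (hK hx) y (hK hy) hxy
  exact ⟨v, h1, h2, fun z hz => h3 z (hK hz)⟩

theorem IndepDiam.linearIndependent {K : Set E} {D M : ℝ} (h : IndepDiam K D M) {p : E}
    (hp : p ∈ K) : LinearIndependent ℝ fun z : {z : E // z ∈ K ∧ dist p z = D} => p - z.1 := by
  classical
  rw [linearIndependent_iff']
  intro s g hg i hi
  obtain ⟨v, -, h2, h3⟩ := h p hp i.1 i.2.1 i.2.2
  have h4 : ⟪∑ j ∈ s, g j • (p - j.1), v⟫ = 0 := by rw [hg, inner_zero_left]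
  rw [sum_inner, Finset.sum_eq_single i] at h4
  · rw [inner_smul_left, h2] at h4
    simpa using h4
  · intro j _ hji
    rw [inner_smul_left, h3 j.1 j.2.1 j.2.2 (fun h => hji (Subtype.ext h)), mul_zero]
  · intro h; exact absurd hi h

theorem IndepDiam.sep {K : Set E} {D M : ℝ} (h : IndepDiam K D M) {p z z' : E} (hp : p ∈ K)
    (hz : z ∈ K) (hz' : z' ∈ K) (h1 : dist p z = D) (h2 : dist p z' = D) (hne : z ≠ z') :
    1 ≤ M * dist z z' := by
  obtain ⟨v, hv, h3, h4⟩ := h p hp z hz h1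
  have h5 := h4 z' hz' h2 hne.symm
  have h6 : ⟪z' - z, v⟫ = 1 := by
    have : z' - z = (p - z) - (p - z') := by abel
    rw [this, inner_sub_left, h3, h5, sub_zero]
  have h7 := real_inner_le_norm (z' - z) v
  rw [h6, ← dist_eq_norm, dist_comm] at h7
  calc (1 : ℝ) ≤ dist z z' * ‖v‖ := h7
    _ ≤ dist z z' * M := by gcongr
    _ = M * dist z z' := mul_comm _ _

theorem IndepDiam.tame {K : Set E} {D M : ℝ} (h : IndepDiam K D M) {n : ℕ} {p : E} (hp : p ∈ K) :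
    Tame K D n p := by
  refine Or.inr ⟨?_, Or.inl (h.linearIndependent hp)⟩
  have hM : 0 < |M| + 1 := by positivity
  have hM2 : M ≤ |M| + 1 := (le_abs_self M).trans (by linarith)
  have key : ∀ {p z z' : E}, p ∈ K → z ∈ K → z' ∈ K → dist p z = D → dist p z' = D → z ≠ z' →
      1 / (|M| + 1) ≤ dist z z' := by
    intro p z z' hp hz hz' h1 h2 hne
    rw [div_le_iff₀ hM]
    calc (1 : ℝ) ≤ M * dist z z' := h.sep hp hz hz' h1 h2 hne
      _ ≤ (|M| + 1) * dist z z' := by gcongr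
      _ = _ := mul_comm _ _
  refine ⟨1 / (2 * (|M| + 1)), by positivity, ?_, ?_⟩
  · intro q hq _ z hz z' hz' h1 h2 hne
    refine le_trans ?_ (key hq hz hz' h1 h2 hne)
    gcongr
    linarith
  · intro z hz q hq q' hq' h1 h2 h3 h4
    by_contra hne
    have h5 := key hz hq hq' (by rw [dist_comm]; exact h3) (by rw [dist_comm]; exact h4) hne
    have h6 : dist q q' ≤ dist q p + dist q' p := dist_triangle_right _ _ _
    have h7 : 1 / (2 * (|M| + 1)) = 1 / (|M| + 1) / 2 := by field_simp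
    rw [h7] at h1 h2
    linarith

/-- **Solving the length equations.** -/
theorem IndepDiam.solve {K : Set E} {D M : ℝ} (hD : 0 < D) (h : IndepDiam K D M) :
    ∃ ε > 0, ∃ C > 0, ε ≤ D ∧ ∃ W : (E → E → ℝ) → E → E,
      (∀ x ∈ K, W 0 x = 0) ∧
      (∀ δ δ' : E → E → ℝ, (∀ x y, |δ x y| ≤ ε) → (∀ x y, |δ' x y| ≤ ε) → ∀ α ≥ 0,
        (∀ x y, |δ x y - δ' x y| ≤ α) → ∀ x ∈ K, ‖W δ x - W δ' x‖ ≤ C * α) ∧
      ∀ δ : E → E → ℝ, (∀ x y, |δ x y| ≤ ε) → (∀ x y, δ x y = δ y x) →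
        ∀ x ∈ K, ∀ y ∈ K, dist x y = D → dist (x + W δ x) (y + W δ y) = D + δ x y := by
  classical
  set n := finrank ℝ E
  -- the partner sets
  have hli : ∀ x ∈ K, LinearIndependent ℝ fun z : {z : E // z ∈ K ∧ dist x z = D} => x - z.1 :=
    fun x hx => h.linearIndependent hx
  have hfin : ∀ x ∈ K, {z : E | z ∈ K ∧ dist x z = D}.Finite := fun x hx => by
    have : Finite ↑{z : E | z ∈ K ∧ dist x z = D} := (hli x hx).finite
    exact Set.toFinite _
  choose! v hv1 hv2 hv3 using h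
  let N : E → Finset E := fun x => if hx : x ∈ K then (hfin x hx).toFinset else ∅
  have hN : ∀ x ∈ K, ∀ z, z ∈ N x ↔ z ∈ K ∧ dist x z = D := by
    intro x hx z
    simp [N, hx]
  have hcard : ∀ x ∈ K, (N x).card ≤ n := by
    intro x hx
    have : Finite {z : E // z ∈ K ∧ dist x z = D} := (hli x hx).finite
    have := Fintype.ofFinite {z : E // z ∈ K ∧ dist x z = D}
    have h1 := (hli x hx).fintype_card_le_finrank
    have h2 : (N x).card = Fintype.card {z : E // z ∈ K ∧ dist x z = D} := by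
      rw [← Fintype.card_coe]
      exact Fintype.card_congr (Equiv.subtypeEquivRight fun z => hN x hx z)
    rw [h2]
    exact h1
  let w : (E × E → ℝ) → E → E := fun s x => ∑ z ∈ N x, s (x, z) • v x z
  set L := n * |M| + 1 with hL
  have hL0 : 0 < L := by positivity
  have hw : ∀ s s' : E × E → ℝ, ∀ ρ, 0 ≤ ρ → (∀ p, |s p - s' p| ≤ ρ) → ∀ x ∈ K,
      ‖w s x - w s' x‖ ≤ L * ρ := by
    intro s s' ρ hρ hss x hx
    have h1 : w s x - w s' x = ∑ z ∈ N x, (s (x, z) - s' (x, z)) • v x z := by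
      simp only [w, sub_smul, Finset.sum_sub_distrib]
    rw [h1]
    calc ‖∑ z ∈ N x, (s (x, z) - s' (x, z)) • v x z‖
        ≤ ∑ z ∈ N x, ‖(s (x, z) - s' (x, z)) • v x z‖ := norm_sum_le _ _
      _ ≤ ∑ z ∈ N x, ρ * |M| := by
          refine Finset.sum_le_sum fun z hz => ?_
          rw [norm_smul, Real.norm_eq_abs]
          have h2 := (hN x hx z).1 hz
          exact mul_le_mul (hss _) ((hv1 x hx z h2.1 h2.2).trans (le_abs_self M))
            (norm_nonneg _) hρ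
      _ = (N x).card * (ρ * |M|) := by rw [Finset.sum_const, nsmul_eq_mul]
      _ ≤ n * (ρ * |M|) := by
          have := hcard x hx
          gcongr
      _ ≤ L * ρ := by rw [hL]; nlinarith
  have hw00 : ∀ x, w 0 x = 0 := fun x => by simp [w]
  have hw0 : ∀ s : E × E → ℝ, ∀ ρ, 0 ≤ ρ → (∀ p, |s p| ≤ ρ) → ∀ x ∈ K, ‖w s x‖ ≤ L * ρ := by
    intro s ρ hρ hs x hx
    have := hw s 0 ρ hρ (by simpa using hs) x hx
    rwa [hw00, sub_zero] at this
  set R := 1 / (4 * L ^ 2) with hR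
  have hR0 : 0 < R := by positivity
  have hLR : L ^ 2 * R = 1 / 4 := by rw [hR]; field_simp
  set ε := min D (R / (2 * D)) with hε
  have hε0 : 0 < ε := by positivity
  have hεD : ε ≤ D := min_le_left _ _
  have hεR : D * ε ≤ R / 2 := by
    have : ε ≤ R / (2 * D) := min_le_right _ _
    calc D * ε ≤ D * (R / (2 * D)) := by gcongr
      _ = R / 2 := by field_simp
  let Φ : (E → E → ℝ) → (E × E → ℝ) → E × E → ℝ := fun δ s p =>
    if p.1 ∈ K ∧ p.2 ∈ K ∧ dist p.1 p.2 = D then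
      (2 * D * δ p.1 p.2 + δ p.1 p.2 ^ 2 - ‖w s p.1 - w s p.2‖ ^ 2) / 4 else 0
  have hΦ1 : ∀ δ : E → E → ℝ, (∀ x y, |δ x y| ≤ ε) → ∀ s, (∀ p, |s p| ≤ R) →
      ∀ p, |Φ δ s p| ≤ R := by
    intro δ hδ s hs p
    by_cases hp : p.1 ∈ K ∧ p.2 ∈ K ∧ dist p.1 p.2 = D
    · simp only [Φ, hp, and_self, if_true]
      have h1 := hw0 s R hR0.le hs p.1 hp.1
      have h2 := hw0 s R hR0.le hs p.2 hp.2.1
      have h3 : ‖w s p.1 - w s p.2‖ ≤ 2 * (L * R) := (norm_sub_le _ _).trans (by linarith)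
      have h4 : ‖w s p.1 - w s p.2‖ ^ 2 ≤ R := by
        calc ‖w s p.1 - w s p.2‖ ^ 2 ≤ (2 * (L * R)) ^ 2 :=
              pow_le_pow_left₀ (norm_nonneg _) h3 2
          _ = 4 * (L ^ 2 * R) * R := by ring
          _ = R := by rw [hLR]; ring
      have h5 := hδ p.1 p.2
      rw [abs_le] at h5 ⊢
      have h6 : 0 ≤ ‖w s p.1 - w s p.2‖ ^ 2 := by positivity
      have h7 : δ p.1 p.2 ^ 2 ≤ D * ε := by
        rw [← sq_abs]
        calc |δ p.1 p.2| ^ 2 = |δ p.1 p.2| * |δ p.1 p.2| := sq _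
          _ ≤ D * ε := mul_le_mul ((hδ _ _).trans hεD) (hδ _ _) (abs_nonneg _) hD.le
      have h8 : 0 ≤ δ p.1 p.2 ^ 2 := by positivity
      have h9 : D * δ p.1 p.2 ≤ D * ε := mul_le_mul_of_nonneg_left h5.2 hD.le
      have h10 : -(D * ε) ≤ D * δ p.1 p.2 := by
        have := mul_le_mul_of_nonneg_left h5.1 hD.le
        linarith
      constructor <;> linarith
    · simp only [Φ, hp, if_false, abs_zero]
      exact hR0.le
  have hΦ2 : ∀ δ : E → E → ℝ, ∀ s s' : E × E → ℝ, ∀ ρ, (∀ p, |s p| ≤ R) → (∀ p, |s' p| ≤ R) →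
      (∀ p, |s p - s' p| ≤ ρ) → ∀ p, |Φ δ s p - Φ δ s' p| ≤ ρ / 2 := by
    intro δ s s' ρ hs hs' hss p
    have hρ : 0 ≤ ρ := (abs_nonneg _).trans (hss p)
    by_cases hp : p.1 ∈ K ∧ p.2 ∈ K ∧ dist p.1 p.2 = D
    · simp only [Φ, hp, and_self, if_true]
      set a := w s p.1 - w s p.2 with ha
      set a' := w s' p.1 - w s' p.2 with ha'
      have h1 := hw0 s R hR0.le hs p.1 hp.1
      have h2 := hw0 s R hR0.le hs p.2 hp.2.1
      have h3 : ‖a‖ ≤ 2 * (L * R) := (norm_sub_le _ _).trans (by linarith)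
      have h1' := hw0 s' R hR0.le hs' p.1 hp.1
      have h2' := hw0 s' R hR0.le hs' p.2 hp.2.1
      have h3' : ‖a'‖ ≤ 2 * (L * R) := (norm_sub_le _ _).trans (by linarith)
      have h4 : ‖a - a'‖ ≤ 2 * (L * ρ) := by
        have e1 := hw s s' ρ hρ hss p.1 hp.1
        have e2 := hw s s' ρ hρ hss p.2 hp.2.1
        have e3 : a - a' = (w s p.1 - w s' p.1) - (w s p.2 - w s' p.2) := by
          rw [ha, ha']; abel
        rw [e3]
        exact (norm_sub_le _ _).trans (by linarith)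
      have h5 : |‖a‖ - ‖a'‖| ≤ 2 * (L * ρ) := (abs_norm_sub_norm_le _ _).trans h4
      have h6 : |‖a'‖ ^ 2 - ‖a‖ ^ 2| ≤ 2 * ρ := by
        have e1 : ‖a'‖ ^ 2 - ‖a‖ ^ 2 = -((‖a‖ - ‖a'‖) * (‖a‖ + ‖a'‖)) := by ring
        rw [e1, abs_neg, abs_mul, abs_of_nonneg (by positivity : 0 ≤ ‖a‖ + ‖a'‖)]
        calc |‖a‖ - ‖a'‖| * (‖a‖ + ‖a'‖) ≤ 2 * (L * ρ) * (4 * (L * R)) := by
              refine mul_le_mul h5 (by linarith) (by positivity) (by positivity)
          _ = 8 * (L ^ 2 * R) * ρ := by ring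
          _ = 2 * ρ := by rw [hLR]; ring
      have h7 : (2 * D * δ p.1 p.2 + δ p.1 p.2 ^ 2 - ‖a‖ ^ 2) / 4 -
          (2 * D * δ p.1 p.2 + δ p.1 p.2 ^ 2 - ‖a'‖ ^ 2) / 4 = (‖a'‖ ^ 2 - ‖a‖ ^ 2) / 4 := by ring
      rw [h7, abs_div, abs_of_pos (by norm_num : (0 : ℝ) < 4)]
      linarith
    · simp only [Φ, hp, if_false, sub_self, abs_zero]
      positivity
  have hΦ3 : ∀ δ δ' : E → E → ℝ, (∀ x y, |δ x y| ≤ ε) → (∀ x y, |δ' x y| ≤ ε) → ∀ α ≥ 0,
        (∀ x y, |δ x y - δ' x y| ≤ α) → ∀ s p, |Φ δ s p - Φ δ' s p| ≤ D * α := by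
    intro δ δ' hδ hδ' α hα hdd s p
    by_cases hp : p.1 ∈ K ∧ p.2 ∈ K ∧ dist p.1 p.2 = D
    · simp only [Φ, hp, and_self, if_true]
      have h1 : (2 * D * δ p.1 p.2 + δ p.1 p.2 ^ 2 - ‖w s p.1 - w s p.2‖ ^ 2) / 4 -
          (2 * D * δ' p.1 p.2 + δ' p.1 p.2 ^ 2 - ‖w s p.1 - w s p.2‖ ^ 2) / 4 =
          (δ p.1 p.2 - δ' p.1 p.2) * ((2 * D + (δ p.1 p.2 + δ' p.1 p.2)) / 4) := by ring
      rw [h1, abs_mul]
      have h2 := hδ p.1 p.2
      have h3 := hδ' p.1 p.2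
      rw [abs_le] at h2 h3
      have h4 : |(2 * D + (δ p.1 p.2 + δ' p.1 p.2)) / 4| ≤ D := by
        rw [abs_le]
        constructor <;> linarith [h2.1, h2.2, h3.1, h3.2]
      calc _ ≤ α * D := mul_le_mul (hdd _ _) h4 (abs_nonneg _) hα
        _ = D * α := mul_comm _ _
    · simp only [Φ, hp, if_false, sub_self, abs_zero]
      positivity
  have hex : ∀ δ : E → E → ℝ, ∃ s : E × E → ℝ, (∀ x y, |δ x y| ≤ ε) →
      (∀ p, |s p| ≤ R) ∧ ∀ p, Φ δ s p = s p := by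
    intro δ
    by_cases hδ : ∀ x y, |δ x y| ≤ ε
    · obtain ⟨s, h1, h2⟩ := exists_fixed (Φ δ) hR0.le (hΦ1 δ hδ) (hΦ2 δ)
      exact ⟨s, fun _ => ⟨h1, h2⟩⟩
    · exact ⟨0, fun h => absurd h hδ⟩
  choose s hs using hex
  refine ⟨ε, hε0, L * (2 * D), by positivity, hεD, fun δ => w (s δ), ?_, ?_, ?_⟩
  · intro x hx
    have h0 : ∀ x y : E, |(0 : E → E → ℝ) x y| ≤ ε := fun x y => by simpa using hε0.le
    obtain ⟨h1, h2⟩ := hs 0 h0
    have h3 : ∀ p, Φ 0 (0 : E × E → ℝ) p = (0 : E × E → ℝ) p := by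
      intro p
      simp [Φ, hw00]
    have h4 : ∀ p, |s 0 p - (0 : E × E → ℝ) p| ≤ 2 * 0 :=
      fixed_close (Φ := Φ 0) (Φ' := Φ 0) (R := R) le_rfl (hΦ2 0) (by simp) h1
        (by simpa using hR0.le) h2 h3
    have h5 := hw (s 0) 0 0 le_rfl (by simpa using h4) x hx
    rw [hw00, sub_zero, mul_zero] at h5
    exact norm_eq_zero.1 (le_antisymm h5 (norm_nonneg _))
  · intro δ δ' hδ hδ' α hα hdd x hx
    obtain ⟨h1, h2⟩ := hs δ hδ
    obtain ⟨h1', h2'⟩ := hs δ' hδ'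
    have h4 : ∀ p, |s δ p - s δ' p| ≤ 2 * (D * α) :=
      fixed_close (Φ := Φ δ) (Φ' := Φ δ') (R := R) (by positivity) (hΦ2 δ)
        (hΦ3 δ δ' hδ hδ' α hα hdd) h1 h1' h2 h2'
    refine (hw _ _ _ (by positivity) h4 x hx).trans (le_of_eq (by ring))
  · intro δ hδ hsym x hx y hy hxy
    obtain ⟨h1, h2⟩ := hs δ hδ
    have e1 : s δ (x, y) =
        (2 * D * δ x y + δ x y ^ 2 - ‖w (s δ) x - w (s δ) y‖ ^ 2) / 4 := by
      rw [← h2 (x, y)]
      simp [Φ, hx, hy, hxy]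
    have e2 : s δ (y, x) =
        (2 * D * δ x y + δ x y ^ 2 - ‖w (s δ) x - w (s δ) y‖ ^ 2) / 4 := by
      rw [← h2 (y, x)]
      have hyx : dist y x = D := by rw [dist_comm]; exact hxy
      simp [Φ, hx, hy, hyx, hsym y x, norm_sub_rev (w (s δ) y) (w (s δ) x)]
    have key : ∀ x ∈ K, ∀ y ∈ K, dist x y = D → ⟪x - y, w (s δ) x⟫ = s δ (x, y) := by
      intro x hx y hy hxy
      simp only [w]
      rw [inner_sum, Finset.sum_eq_single y]
      · rw [inner_smul_right, hv2 x hx y hy hxy, mul_one]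
      · intro z hz hzy
        have h3 := (hN x hx z).1 hz
        rw [inner_smul_right, hv3 x hx z h3.1 h3.2 y hy hxy hzy.symm, mul_zero]
      · intro h3
        exact absurd ((hN x hx y).2 ⟨hy, hxy⟩) h3
    have e3 := key x hx y hy hxy
    have e4 := key y hy x hx (by rw [dist_comm]; exact hxy)
    have e5 : ⟪x - y, w (s δ) x - w (s δ) y⟫ = s δ (x, y) + s δ (y, x) := by
      have : x - y = -(y - x) := by abel
      rw [inner_sub_right, e3, this, inner_neg_left, e4]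
      ring
    have e6 : dist (x + w (s δ) x) (y + w (s δ) y) =
        ‖(x - y) + (w (s δ) x - w (s δ) y)‖ := by
      rw [dist_eq_norm]; congr 1; abel
    have e7 : ‖(x - y) + (w (s δ) x - w (s δ) y)‖ ^ 2 = (D + δ x y) ^ 2 := by
      rw [norm_add_sq_real, e5, ← dist_eq_norm x y, hxy, e1, e2]
      ring
    have e8 : 0 ≤ D + δ x y := by
      have := (abs_le.1 (hδ x y)).1
      linarith
    rw [e6]
    exact (sq_eq_sq₀ (norm_nonneg _) e8).1 e7

end Pool.Agent.Lib_helper24.BorsukGen
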