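import Pool.Agent.Lib_helper24.BorsukGen.GenPos

/-!
# Local geometry of the diameters near a point with independent diameters
-/

open Set Module Metric
open scoped RealInnerProductSpace

namespace Pool.Agent.Lib_helper24.BorsukGen

set_option linter.unusedSectionVars false

variable {E : Type} [NormedAddCommGroup E] [InnerProductSpace ℝ E] [FiniteDimensional ℝ E]

theorem span_const {J : Type} [Fintype J] (u : J → E) :
    ∃ c > 0, ∀ w ∈ Submodule.span ℝ (range u), (∀ l, |⟪u l, w⟫| ≤ c * ‖w‖) → w = 0 := by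
  let V := Submodule.span ℝ (range u)
  let T : V →ₗ[ℝ] (J → ℝ) := LinearMap.pi fun l => (innerSL ℝ (u l)).toLinearMap ∘ₗ V.subtype
  have hT : ∀ (w : V) l, T w l = ⟪u l, (w : E)⟫ := fun w l => rfl
  have hker : LinearMap.ker T = ⊥ := by
    rw [LinearMap.ker_eq_bot']
    intro w hw
    have h1 : ∀ l, ⟪u l, (w : E)⟫ = 0 := fun l => by rw [← hT, hw]; rfl
    have h2 : (w : E) ∈ Vᗮ := by
      rw [Submodule.mem_orthogonal]
      intro z hz
      induction hz using Submodule.span_induction with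
      | mem x hx => obtain ⟨l, rfl⟩ := hx; exact h1 l
      | zero => simp
      | add x y _ _ hx hy => rw [inner_add_left, hx, hy, add_zero]
      | smul a x _ hx => rw [inner_smul_left, hx, mul_zero]
    have h3 : ⟪(w : E), (w : E)⟫ = 0 := (Submodule.mem_orthogonal _ _).1 h2 _ w.2
    exact Subtype.ext (inner_self_eq_zero.1 h3)
  obtain ⟨K, hK, hanti⟩ := LinearMap.exists_antilipschitzWith T hker
  have hK' : (0 : ℝ) < K := hK
  refine ⟨1 / (2 * K), by positivity, fun w hw hc => ?_⟩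
  have h1 : ‖w‖ ≤ K * ‖T ⟨w, hw⟩‖ := by
    have := hanti.le_mul_dist (⟨w, hw⟩ : V) 0
    simpa [dist_zero_right] using this
  have h2 : ‖T ⟨w, hw⟩‖ ≤ 1 / (2 * K) * ‖w‖ :=
    (pi_norm_le_iff_of_nonneg (by positivity)).2 fun l => by
      rw [hT, Real.norm_eq_abs]; exact hc l
  have h3 : ‖w‖ ≤ 1 / 2 * ‖w‖ := by
    calc ‖w‖ ≤ K * ‖T ⟨w, hw⟩‖ := h1
      _ ≤ K * (1 / (2 * K) * ‖w‖) := by gcongr
      _ = 1 / 2 * ‖w‖ := by field_simp
  have h4 : ‖w‖ = 0 := by
    have := norm_nonneg w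
    linarith
  exact norm_eq_zero.1 h4

/-- A constant which works for all subfamilies. -/
theorem span_const_all {k : ℕ} (u : Fin k → E) :
    ∃ c > 0, ∀ J : Finset (Fin k), ∀ w ∈ Submodule.span ℝ (range fun l : J => u l),
      (∀ l ∈ J, |⟪u l, w⟫| ≤ c * ‖w‖) → w = 0 := by
  choose c hc hw using fun J : Finset (Fin k) => span_const (fun l : J => u l)
  obtain ⟨J₀, -, hJ₀⟩ := Finset.exists_min_image Finset.univ c ⟨∅, Finset.mem_univ _⟩
  refine ⟨c J₀, hc J₀, fun J w hwJ hl => hw J w hwJ fun l => (hl l.1 l.2).trans ?_⟩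
  exact mul_le_mul_of_nonneg_right (hJ₀ J (Finset.mem_univ _)) (norm_nonneg _)

/-- The tuples `(q, z)`: `q` is near `p` and `z l` is a partner of `q` near `y l`. -/
def Tup (K : Set E) (D ρ r : ℝ) (p : E) {k : ℕ} (y : Fin k → E) (J : Finset (Fin k)) :
    Set (E × (J → E)) :=
  {τ | (τ.1 ∈ K ∧ dist τ.1 p ≤ ρ) ∧ ∀ l : J, τ.2 l ∈ K ∧ dist (τ.2 l) (y l) ≤ r ∧
    dist τ.1 (τ.2 l) = D}

theorem isCompact_tup {K : Set E} (hK : IsCompact K) (D ρ r : ℝ) (p : E) {k : ℕ}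
    (y : Fin k → E) (J : Finset (Fin k)) : IsCompact (Tup K D ρ r p y J) := by
  have h1 : IsCompact (K ×ˢ (univ.pi fun _ : J => K)) := hK.prod (isCompact_univ_pi fun _ => hK)
  refine h1.of_isClosed_subset ?_ ?_
  · have : Tup K D ρ r p y J = ({τ : E × (J → E) | τ.1 ∈ K} ∩ {τ | dist τ.1 p ≤ ρ}) ∩
        ⋂ l : J, ({τ | τ.2 l ∈ K} ∩ ({τ | dist (τ.2 l) (y l) ≤ r} ∩
          {τ | dist τ.1 (τ.2 l) = D})) := by
      ext τ
      simp [Tup]
    rw [this]
    refine ((hK.isClosed.preimage continuous_fst).inter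
      (isClosed_le (by fun_prop) continuous_const)).inter (isClosed_iInter fun l => ?_)
    exact (hK.isClosed.preimage (by fun_prop)).inter
      ((isClosed_le (by fun_prop) continuous_const).inter
        (isClosed_eq (by fun_prop) continuous_const))
  · intro τ hτ
    exact ⟨hτ.1.1, fun l _ => (hτ.2 l).1⟩

/-- Differences of first coordinates of tuples are transversal to the span of the directions. -/
theorem fst_eq_of_mem_span {K : Set E} {D ρ r c : ℝ} (hdiam : ∀ x ∈ K, ∀ y ∈ K, dist x y ≤ D)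
    {p : E} {k : ℕ} {y : Fin k → E}
    (hc : ∀ J : Finset (Fin k), ∀ w ∈ Submodule.span ℝ (range fun l : J => p - y l),
      (∀ l ∈ J, |⟪p - y l, w⟫| ≤ c * ‖w‖) → w = 0) (hρ : ρ + r ≤ c)
    {J : Finset (Fin k)} {τ τ' : E × (J → E)} (hτ : τ ∈ Tup K D ρ r p y J)
    (hτ' : τ' ∈ Tup K D ρ r p y J)
    (hspan : τ.1 - τ'.1 ∈ Submodule.span ℝ (range fun l : J => p - y l)) : τ.1 = τ'.1 := by
  rw [← sub_eq_zero]
  refine hc J _ hspan fun l hl => ?_
  set w := τ.1 - τ'.1 with hw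
  obtain ⟨h1, h2, h3⟩ := hτ.2 ⟨l, hl⟩
  obtain ⟨h1', h2', h3'⟩ := hτ'.2 ⟨l, hl⟩
  set z := τ.2 ⟨l, hl⟩
  set z' := τ'.2 ⟨l, hl⟩
  -- inequality at `τ'.1`, partner of `τ.1`
  have e1 : 0 ≤ ⟪τ.1 - z, w⟫ := by
    have h4 : ‖τ'.1 - z‖ ≤ D := by rw [← dist_eq_norm]; exact hdiam _ hτ'.1.1 _ h1
    have h5 : ‖τ.1 - z‖ = D := by rw [← dist_eq_norm]; exact h3
    have h6 : τ'.1 - z = (τ.1 - z) - w := by rw [hw]; abel
    have h7 : ‖(τ.1 - z) - w‖ ^ 2 = ‖τ.1 - z‖ ^ 2 - 2 * ⟪τ.1 - z, w⟫ + ‖w‖ ^ 2 :=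
      norm_sub_sq_real _ _
    have h8 : ‖(τ.1 - z) - w‖ ^ 2 ≤ ‖τ.1 - z‖ ^ 2 := by
      rw [← h6, h5]
      exact pow_le_pow_left₀ (norm_nonneg _) h4 2
    nlinarith [sq_nonneg ‖w‖]
  have e2 : ⟪τ'.1 - z', w⟫ ≤ 0 := by
    have h4 : ‖τ.1 - z'‖ ≤ D := by rw [← dist_eq_norm]; exact hdiam _ hτ.1.1 _ h1'
    have h5 : ‖τ'.1 - z'‖ = D := by rw [← dist_eq_norm]; exact h3'
    have h6 : τ.1 - z' = (τ'.1 - z') + w := by rw [hw]; abel
    have h7 : ‖(τ'.1 - z') + w‖ ^ 2 = ‖τ'.1 - z'‖ ^ 2 + 2 * ⟪τ'.1 - z', w⟫ + ‖w‖ ^ 2 :=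
      norm_add_sq_real _ _
    have h8 : ‖(τ'.1 - z') + w‖ ^ 2 ≤ ‖τ'.1 - z'‖ ^ 2 := by
      rw [← h6, h5]
      exact pow_le_pow_left₀ (norm_nonneg _) h4 2
    nlinarith [sq_nonneg ‖w‖]
  have n1 : ‖(p - y l) - (τ.1 - z)‖ ≤ ρ + r := by
    have : (p - y l) - (τ.1 - z) = (z - y l) - (τ.1 - p) := by abel
    rw [this]
    refine (norm_sub_le _ _).trans ?_
    rw [← dist_eq_norm, ← dist_eq_norm]
    linarith [hτ.1.2]
  have n2 : ‖(p - y l) - (τ'.1 - z')‖ ≤ ρ + r := by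
    have : (p - y l) - (τ'.1 - z') = (z' - y l) - (τ'.1 - p) := by abel
    rw [this]
    refine (norm_sub_le _ _).trans ?_
    rw [← dist_eq_norm, ← dist_eq_norm]
    linarith [hτ'.1.2]
  have m1 : |⟪(p - y l) - (τ.1 - z), w⟫| ≤ c * ‖w‖ :=
    (abs_real_inner_le_norm _ _).trans
      (mul_le_mul_of_nonneg_right (n1.trans hρ) (norm_nonneg _))
  have m2 : |⟪(p - y l) - (τ'.1 - z'), w⟫| ≤ c * ‖w‖ :=
    (abs_real_inner_le_norm _ _).trans
      (mul_le_mul_of_nonneg_right (n2.trans hρ) (norm_nonneg _))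
  rw [inner_sub_left] at m1 m2
  rw [abs_le] at m1 m2 ⊢
  constructor <;> linarith [m1.1, m1.2, m2.1, m2.2]

/-- The coordinates of the first component of a tuple in the orthogonal complement. -/
theorem exists_coord {k : ℕ} {u : Fin k → E} (hu : LinearIndependent ℝ u) (J : Finset (Fin k)) :
    ∃ π : E → Fin (finrank ℝ E - J.card) → ℝ, Continuous π ∧
      ∀ x x', π x = π x' → x - x' ∈ Submodule.span ℝ (range fun l : J => u l) := by
  set V := Submodule.span ℝ (range fun l : J => u l) with hV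
  have h1 : finrank ℝ V = J.card := by
    have h0 := finrank_span_eq_card (hu.comp (fun l : J => (l : Fin k)) Subtype.val_injective)
    rw [Fintype.card_coe] at h0
    exact h0
  have h2 : finrank ℝ Vᗮ = finrank ℝ E - J.card := by
    have := V.finrank_add_finrank_orthogonal
    omega
  let B := (finBasisOfFinrankEq ℝ Vᗮ h2).equivFun
  refine ⟨fun x => B (Vᗮ.orthogonalProjectionOnto x), ?_, fun x x' hx => ?_⟩
  · exact (LinearMap.continuous_of_finiteDimensional B.toLinearMap).comp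
      Vᗮ.orthogonalProjectionOnto.continuous
  · have h3 : Vᗮ.orthogonalProjectionOnto x = Vᗮ.orthogonalProjectionOnto x' := B.injective hx
    have h4 : Vᗮ.orthogonalProjectionOnto (x - x') = 0 := by rw [map_sub, h3, sub_self]
    rw [Submodule.orthogonalProjectionOnto_eq_zero_iff, Submodule.orthogonal_orthogonal] at h4
    exact h4

/-- All partners of points near `p` are near the partners of `p`. -/
theorem exists_near_partner {K : Set E} (hK : IsCompact K) {D r : ℝ} {p : E} (hp : p ∈ K)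
    (hr : 0 < r) {k : ℕ} {y : Fin k → E} (hy : ∀ z ∈ K, dist p z = D → ∃ l, z = y l) :
    ∃ ρ > 0, ∀ q ∈ K, dist q p ≤ ρ → ∀ z ∈ K, dist q z = D → ∃ l, dist z (y l) ≤ r := by
  let S : Set (E × E) := (K ×ˢ K) ∩ ({x | dist x.1 x.2 = D} ∩ ⋂ l, {x | r ≤ dist x.2 (y l)})
  have hS : IsCompact S := by
    refine (hK.prod hK).inter_right ?_
    refine (isClosed_eq (by fun_prop) continuous_const).inter (isClosed_iInter fun l => ?_)
    exact isClosed_le continuous_const (by fun_prop)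
  rcases S.eq_empty_or_nonempty with he | hne
  · refine ⟨1, one_pos, fun q hq _ z hz hqz => ?_⟩
    by_contra hc
    push Not at hc
    have : (q, z) ∈ S := ⟨⟨hq, hz⟩, hqz, mem_iInter.2 fun l => (hc l).le⟩
    rw [he] at this
    exact this
  · obtain ⟨⟨q₀, z₀⟩, h0, hmin⟩ := hS.exists_isMinOn hne
      (f := fun x : E × E => dist x.1 p) (by fun_prop)
    have hpos : 0 < dist q₀ p := by
      rw [dist_pos]
      rintro rfl
      obtain ⟨⟨_, hz⟩, hd, hl⟩ := h0
      obtain ⟨l, rfl⟩ := hy z₀ hz hd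
      have := mem_iInter.1 hl l
      simp only [Set.mem_ofPred_eq, dist_self] at this
      linarith
    refine ⟨dist q₀ p / 2, by positivity, fun q hq hqp z hz hqz => ?_⟩
    by_contra hc
    push Not at hc
    have hmem : (q, z) ∈ S := ⟨⟨hq, hz⟩, hqz, mem_iInter.2 fun l => (hc l).le⟩
    have h2 : dist q₀ p ≤ dist q p := hmin hmem
    linarith

end Pool.Agent.Lib_helper24.BorsukGen
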