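import Pool.Agent.Lib_helper24.BorsukGen.Step

/-!
# Borsuk partitions of sets with locally independent diameters
-/

open Set Module Metric
open scoped RealInnerProductSpace

namespace Pool.Agent.Lib_helper24.BorsukGen

set_option linter.unusedSectionVars false

variable {E : Type} [NormedAddCommGroup E] [InnerProductSpace ℝ E] [FiniteDimensional ℝ E]

/-- `K` is covered by `n + 1` closed subsets of diameter smaller than `D`. -/
def Cov (n : ℕ) (D : ℝ) (K : Set E) : Prop :=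
  ∃ C : Fin (n + 1) → Set E, (∀ i, IsClosed (C i)) ∧ (∀ i, C i ⊆ K) ∧
      (∀ i, diam (C i) < D) ∧ K ⊆ ⋃ i, C i

theorem cov_empty (n : ℕ) {D : ℝ} (hD : 0 < D) : Cov n D (∅ : Set E) :=
  ⟨fun _ => ∅, fun _ => isClosed_empty, fun _ => Subset.rfl, fun _ => by simpa using hD,
    empty_subset _⟩

/-- Coverability passes from the intersection of a chain to some member. -/
theorem cov_chain {n : ℕ} {D : ℝ} {c : Set (Set E)} (hc : ∀ K ∈ c, IsCompact K)
    (hchain : IsChain (· ⊆ ·) c) (hne : c.Nonempty) (h : Cov n D (⋂₀ c)) : ∃ K ∈ c, Cov n D K := by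
  obtain ⟨C, h1, h2, h3, h4⟩ := h
  obtain ⟨K₀, hK₀⟩ := hne
  have hL : ⋂₀ c ⊆ K₀ := sInter_subset_of_mem hK₀
  obtain ⟨i₀, -, hi₀⟩ := Finset.exists_max_image Finset.univ (fun i => diam (C i))
    ⟨0, Finset.mem_univ _⟩
  set ε := (D - diam (C i₀)) / 3 with hε
  have hε0 : 0 < ε := by have := h3 i₀; rw [hε]; linarith
  have hεi : ∀ i, diam (C i) ≤ D - 3 * ε := fun i => by
    have := hi₀ i (Finset.mem_univ _)
    rw [hε]
    linarith
  have hU : IsOpen (⋃ i, thickening ε (C i)) := isOpen_iUnion fun i => isOpen_thickening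
  have hLU : ⋂₀ c ⊆ ⋃ i, thickening ε (C i) := fun x hx => by
    obtain ⟨i, hi⟩ := mem_iUnion.1 (h4 hx)
    exact mem_iUnion.2 ⟨i, self_subset_thickening hε0 _ hi⟩
  have hne' : Nonempty c := ⟨⟨K₀, hK₀⟩⟩
  obtain ⟨⟨K', hK'⟩, hK'U⟩ := exists_subset_nhds_of_isCompact' (V := fun K : c => (K : Set E))
    (by
      intro a b
      rcases hchain.total a.2 b.2 with hab | hab
      · exact ⟨a, Subset.rfl, hab⟩
      · exact ⟨b, hab, Subset.rfl⟩)
    (fun K => hc K.1 K.2) (fun K => (hc K.1 K.2).isClosed)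
    (U := ⋃ i, thickening ε (C i)) (by
      intro x hx
      refine hU.mem_nhds (hLU ?_)
      rw [sInter_eq_iInter]
      exact hx)
  have hCb : ∀ i, Bornology.IsBounded (C i) := fun i =>
    (hc K₀ hK₀).isBounded.subset ((h2 i).trans hL)
  refine ⟨K', hK', fun i => K' ∩ cthickening ε (C i), fun i => ?_, fun i => inter_subset_left,
    fun i => ?_, ?_⟩
  · exact (hc K' hK').isClosed.inter isClosed_cthickening
  · have h5 : diam (K' ∩ cthickening ε (C i)) ≤ diam (cthickening ε (C i)) :=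
      diam_mono inter_subset_right (hCb i).cthickening
    have h6 : diam (cthickening ε (C i)) ≤ diam (C i) + 2 * ε := diam_cthickening_le (C i) hε0.le
    have := hεi i
    linarith
  · intro x hx
    obtain ⟨i, hi⟩ := mem_iUnion.1 (hK'U hx)
    exact mem_iUnion.2 ⟨i, hx, thickening_subset_cthickening _ _ hi⟩

/-- **Main covering theorem.** -/
theorem cov_of_tame {n : ℕ} (hn : finrank ℝ E = n) {K : Set E} (hK : IsCompact K) {D : ℝ}
    (hD : 0 < D) (hdiam : ∀ x ∈ K, ∀ y ∈ K, dist x y ≤ D)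
    (hind : ∀ K₀ ⊆ K, IsCompact K₀ → K₀.Nonempty → ∃ p ∈ K₀, Tame K₀ D n p) :
    Cov n D K := by
  by_contra hcon
  let F : Set (Set E) := {K' | K' ⊆ K ∧ IsCompact K' ∧ ¬ Cov n D K'}
  obtain ⟨K₀, -, hmin⟩ := zorn_superset_nonempty F (by
    intro c hcF hchain hne
    refine ⟨⋂₀ c, ⟨?_, ?_, ?_⟩, fun s hs => sInter_subset_of_mem hs⟩
    · obtain ⟨s, hs⟩ := hne
      exact (sInter_subset_of_mem hs).trans (hcF hs).1
    · obtain ⟨s, hs⟩ := hne
      exact (hcF hs).2.1.of_isClosed_subset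
        (isClosed_sInter fun t ht => (hcF ht).2.1.isClosed) (sInter_subset_of_mem hs)
    · intro h
      obtain ⟨K', hK', hcov⟩ := cov_chain (fun t ht => (hcF ht).2.1) hchain hne h
      exact (hcF hK').2.2 hcov) K ⟨Subset.rfl, hK, hcon⟩
  obtain ⟨hK₀K, hK₀, hK₀c⟩ := hmin.prop
  have hne : K₀.Nonempty := by
    rw [nonempty_iff_ne_empty]
    rintro rfl
    exact hK₀c (cov_empty n hD)
  obtain ⟨p, hp, hpi⟩ := hind K₀ hK₀K hK₀ hne
  obtain ⟨k, y, ρ, r, G⟩ := exists_good hK₀ hD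
    (fun x hx y hy => hdiam x (hK₀K hx) y (hK₀K hy)) hn hp hpi
  have h1 : Cov n D (K₀ \ ball p ρ) := by
    by_contra hno
    have h2 : K₀ \ ball p ρ ∈ F :=
      ⟨sdiff_subset.trans hK₀K, hK₀.diff isOpen_ball, hno⟩
    have h3 := hmin.le_of_le h2 sdiff_subset
    exact (h3 hp).2 (mem_ball_self G.hρ)
  obtain ⟨C, h1, h2, h3, h4⟩ := h1
  exact hK₀c (G.extend h1 (fun i => (h2 i).trans sdiff_subset) h3 h4)

/-- A finite cover by sets of smaller diameter yields a partition. -/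
theorem exists_partition {m : ℕ} {D : ℝ} {K : Set E} (hKb : Bornology.IsBounded K)
    (C : Fin m → Set E) (hCK : ∀ i, C i ⊆ K) (hCD : ∀ i, diam (C i) < D) (hcov : K ⊆ ⋃ i, C i) :
    ∃ P : Fin m → Set E, (⋃ i, P i) = K ∧ (∀ i j, i ≠ j → Disjoint (P i) (P j)) ∧
      ∀ i, diam (P i) < D := by
  refine ⟨fun i => C i \ ⋃ j : {j : Fin m // j < i}, C j, ?_, ?_, ?_⟩
  · apply Subset.antisymm
    · exact iUnion_subset fun i => sdiff_subset.trans (hCK i)
    · intro x hx
      classical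
      obtain ⟨i, hi⟩ := mem_iUnion.1 (hcov hx)
      have hne : (Finset.univ.filter fun i => x ∈ C i).Nonempty := ⟨i, by simp [hi]⟩
      refine mem_iUnion.2 ⟨(Finset.univ.filter fun i => x ∈ C i).min' hne, ?_, ?_⟩
      · exact (Finset.mem_filter.1 (Finset.min'_mem _ hne)).2
      · intro h
        obtain ⟨⟨j, hj⟩, hxj⟩ := mem_iUnion.1 h
        exact absurd (Finset.min'_le _ j (by simpa using hxj)) (not_le.2 hj)
  · have key : ∀ i j : Fin m, i < j → Disjoint (C i \ ⋃ l : {l : Fin m // l < i}, C l)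
        (C j \ ⋃ l : {l : Fin m // l < j}, C l) := by
      intro i j hij
      rw [Set.disjoint_left]
      rintro x ⟨hxi, -⟩ ⟨-, hxj⟩
      exact hxj (mem_iUnion.2 ⟨⟨i, hij⟩, hxi⟩)
    intro i j hij
    rcases lt_or_gt_of_ne hij with h | h
    · exact key i j h
    · exact (key j i h).symm
  · intro i
    exact lt_of_le_of_lt (diam_mono sdiff_subset (hKb.subset (hCK i))) (hCD i)

end Pool.Agent.Lib_helper24.BorsukGen
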