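import Pool.Agent.Lib_helper24.BorsukGen.Local

/-!
# Extending a colouring near a point with independent diameters
-/

open Set Module Metric
open scoped RealInnerProductSpace

namespace Pool.Agent.Lib_helper24.BorsukGen

set_option linter.unusedSectionVars false

variable {E : Type} [NormedAddCommGroup E] [InnerProductSpace ℝ E] [FiniteDimensional ℝ E]

/-- A compact set all of whose distances are smaller than `D` has diameter smaller than `D`. -/
theorem diam_lt_of_compact {S : Set E} (hS : IsCompact S) {D : ℝ} (hD : 0 < D)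
    (h : ∀ x ∈ S, ∀ y ∈ S, dist x y < D) : diam S < D := by
  rcases S.eq_empty_or_nonempty with he | hne
  · rw [he, diam_empty]; exact hD
  · obtain ⟨⟨a, b⟩, hab, hmax⟩ := (hS.prod hS).exists_isMaxOn (hne.prod hne)
      (f := fun x : E × E => dist x.1 x.2) (by fun_prop)
    refine lt_of_le_of_lt (diam_le_of_forall_dist_le dist_nonneg fun x hx y hy => ?_)
      (h a hab.1 b hab.2)
    exact hmax (show (x, y) ∈ S ×ˢ S from ⟨hx, hy⟩)

/-- The basic hypotheses on a small ball around a point `p` of `K`: the points near `p` have at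
most one partner near each `y l` and no partner elsewhere, and the tuples of partners indexed by
`J` are parametrised by a compact space which embeds in `ℝ ^ (n - |J|)`, injectively in each
coordinate. -/
structure Good (K : Set E) (D ρ r : ℝ) (n : ℕ) (p : E) {k : ℕ} (y : Fin k → E) : Prop where
  hK : IsCompact K
  hD : 0 < D
  hdiam : ∀ x ∈ K, ∀ y ∈ K, dist x y ≤ D
  hp : p ∈ K
  hkn : k ≤ n
  hρ : 0 < ρ
  hρD : 2 * ρ < D
  unique : ∀ {q z z' : E} {l : Fin k}, q ∈ K → dist q p ≤ ρ → z ∈ K → z' ∈ K →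
    dist q z = D → dist q z' = D → dist z (y l) ≤ r → dist z' (y l) ≤ r → z = z'
  hpar : ∀ J : Finset (Fin k), ∃ (Q : Type) (_ : TopologicalSpace Q) (_ : CompactSpace Q)
    (π : Q → Fin (n - J.card) → ℝ) (Y : J → Q → E), Continuous π ∧ Function.Injective π ∧
    (∀ l, Continuous (Y l)) ∧ (∀ l τ, Y l τ ∈ K \ ball p ρ) ∧
    (∀ l l' τ τ', Y l τ = Y l' τ' → l = l' ∧ τ = τ') ∧
    ∀ q ∈ K, dist q p ≤ ρ → ∀ z : J → E,
      (∀ l : J, z l ∈ K ∧ dist (z l) (y l) ≤ r ∧ dist q (z l) = D) → ∃ τ, ∀ l, Y l τ = z l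
  hnear : ∀ q ∈ K, dist q p ≤ ρ → ∀ z ∈ K, dist q z = D → ∃ l, dist z (y l) ≤ r

variable {K : Set E} {D ρ r : ℝ} {n : ℕ} {p : E} {k : ℕ} {y : Fin k → E}

theorem far_of {q z : E} (hρD : 2 * ρ < D) (h1 : dist q z = D) (h3 : dist q p ≤ ρ) :
    z ∉ ball p ρ := by
  intro hz
  rw [mem_ball] at hz
  have : dist q z ≤ dist q p + dist z p := dist_triangle_right _ _ _
  linarith

/-- The good functions for `J` contain a dense open set. -/
theorem Good.exists_open_dense (G : Good K D ρ r n p y) (J : Finset (Fin k)) :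
    ∃ U : Set C(↥(K \ ball p ρ), Fin (n + 1) → ℝ), IsOpen U ∧ Dense U ∧ ∀ g ∈ U,
      ∀ q ∈ K, dist q p ≤ ρ → ∀ z : J → ↥(K \ ball p ρ),
        (∀ l : J, dist (z l : E) (y l) ≤ r ∧ dist q (z l) = D) →
        (fun l => g (z l)) ∉ Bad J (n + 1) (n - J.card + 1) := by
  have hX : IsCompact (K \ ball p ρ) := G.hK.diff isOpen_ball
  have : CompactSpace ↥(K \ ball p ρ) := isCompact_iff_compactSpace.1 hX
  obtain ⟨Q, _, _, π, Y, hπ, hπi, hY, hYK, hYi, hYex⟩ := G.hpar J
  let Y' : J → Q → ↥(K \ ball p ρ) := fun l τ => ⟨Y l τ, hYK l τ⟩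
  have hY' : ∀ l, Continuous (Y' l) := fun l => (hY l).subtype_mk _
  refine ⟨{g | ∀ τ, (fun l => g (Y' l τ)) ∉ Bad J (n + 1) (n - J.card + 1)},
    isOpen_good Y' hY', ?_, ?_⟩
  · intro g₀
    rw [Metric.mem_closure_iff]
    intro ε hε
    obtain ⟨g, hg, hg2⟩ := exists_near (m := n + 1) (s := n - J.card) π hπ hπi Y' hY'
      (fun l l' τ τ' h => hYi l l' τ τ' (congrArg Subtype.val h)) g₀ hε
    exact ⟨g, hg2, by rw [dist_comm, dist_eq_norm]; exact hg⟩
  · intro g hg q hq hqp z hz
    obtain ⟨τ, hτ⟩ := hYex q hq hqp (fun l => z l) fun l => ⟨(z l).2.1, hz l⟩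
    have h1 : (fun l => g (z l)) = fun l => g (Y' l τ) := by
      funext l
      congr 1
      exact Subtype.ext (hτ l).symm
    rw [h1]
    exact hg τ

/-- **The colouring can be modified so that every point near `p` sees at most `dim E` colours.** -/
theorem Good.exists_free (G : Good K D ρ r n p y)
    {C : Fin (n + 1) → Set E} (hC : ∀ i, IsClosed (C i)) (hCK : ∀ i, C i ⊆ K)
    (hCD : ∀ i, diam (C i) < D) (hcov : K \ ball p ρ ⊆ ⋃ i, C i) :
    ∃ C' : Fin (n + 1) → Set E, (∀ i, IsClosed (C' i)) ∧ (∀ i, C' i ⊆ K) ∧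
      (∀ i, diam (C' i) < D) ∧ (K \ ball p ρ ⊆ ⋃ i, C' i) ∧
      ∀ q ∈ K, dist q p ≤ ρ → ∃ i, ∀ z ∈ C' i, dist q z ≠ D := by
  classical
  have hX : IsCompact (K \ ball p ρ) := G.hK.diff isOpen_ball
  let X := ↥(K \ ball p ρ)
  have : CompactSpace X := isCompact_iff_compactSpace.1 hX
  -- the distance functions
  let φ : Fin (n + 1) → E → ℝ := fun i x => if (C i).Nonempty then infDist x (C i) else 1
  have hφ : ∀ i, Continuous (φ i) := by
    intro i
    by_cases h : (C i).Nonempty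
    · simp only [φ, h, if_true]; exact continuous_infDist_pt _
    · simp only [φ, h, if_false]; exact continuous_const
  have hφ0 : ∀ i x, 0 ≤ φ i x := by
    intro i x
    by_cases h : (C i).Nonempty
    · simp only [φ, h, if_true]; exact infDist_nonneg
    · simp only [φ, h, if_false]; exact zero_le_one
  let f : C(X, Fin (n + 1) → ℝ) := ⟨fun x i => - φ i x, by
    refine continuous_pi fun i => ?_
    exact ((hφ i).comp continuous_subtype_val).neg⟩
  -- the margin
  obtain ⟨i₀, -, hi₀⟩ := Finset.exists_max_image Finset.univ (fun i => diam (C i))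
    ⟨0, Finset.mem_univ _⟩
  set κ := D - diam (C i₀) with hκ
  have hκ0 : 0 < κ := by have := hCD i₀; linarith
  have hκi : ∀ i, diam (C i) ≤ D - κ := fun i => by
    have := hi₀ i (Finset.mem_univ _)
    linarith
  set η := min (κ / 8) (1 / 4) with hη
  have hη0 : 0 < η := by positivity
  have hη1 : η ≤ κ / 8 := min_le_left _ _
  have hη2 : η ≤ 1 / 4 := min_le_right _ _
  -- general position
  choose U hUo hUd hUg using G.exists_open_dense
  have hdense : Dense (⋂ J, U J) := dense_iInter_of_isOpen hUo hUd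
  obtain ⟨g, hgU, hgf⟩ := hdense.exists_dist_lt f hη0
  have hgf' : ∀ (x : X) i, |g x i - f x i| < η := by
    intro x i
    rw [dist_comm, dist_eq_norm] at hgf
    have h1 := (g - f).norm_coe_le_norm x
    have h2 := norm_le_pi_norm ((g - f) x) i
    have h3 : ((g - f) x) i = g x i - f x i := by simp
    rw [h3, Real.norm_eq_abs] at h2
    linarith
  -- the new sets
  let C' : Fin (n + 1) → Set E := fun i => Subtype.val '' {x : X | ∀ j, g x j ≤ g x i}
  have hC'c : ∀ i, IsCompact (C' i) := by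
    intro i
    refine IsCompact.image ?_ continuous_subtype_val
    refine IsClosed.isCompact ?_
    have : {x : X | ∀ j, g x j ≤ g x i} = ⋂ j, {x : X | g x j ≤ g x i} := by
      ext x; simp
    rw [this]
    exact isClosed_iInter fun j => isClosed_le (by fun_prop) (by fun_prop)
  have hclose : ∀ i, ∀ x ∈ C' i, ∃ a ∈ C i, dist x a ≤ 2 * η := by
    rintro i _ ⟨x, hx, rfl⟩
    obtain ⟨j, hj⟩ := mem_iUnion.1 (hcov x.2)
    have h0 : f x j = 0 := by
      change - φ j x = 0
      have hne : (C j).Nonempty := ⟨x, hj⟩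
      simp only [φ, hne, if_true, infDist_zero_of_mem hj, neg_zero]
    have h1 := hgf' x j
    have h2 := hgf' x i
    have h3 := hx j
    rw [abs_lt] at h1 h2
    have h4 : φ i x ≤ 2 * η := by
      have : f x i = - φ i x := rfl
      linarith [h1.1, h2.2]
    by_cases hne : (C i).Nonempty
    · simp only [φ, hne, if_true] at h4
      obtain ⟨a, ha, hda⟩ := (hC i).exists_infDist_eq_dist hne (x : E)
      exact ⟨a, ha, by rw [← hda]; exact h4⟩
    · simp only [φ, hne, if_false] at h4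
      linarith
  refine ⟨C', fun i => (hC'c i).isClosed, ?_, ?_, ?_, ?_⟩
  · rintro i _ ⟨x, -, rfl⟩
    exact x.2.1
  · intro i
    refine diam_lt_of_compact (hC'c i) G.hD fun x hx x' hx' => ?_
    obtain ⟨a, ha, h1⟩ := hclose i x hx
    obtain ⟨b, hb, h2⟩ := hclose i x' hx'
    have h3 : dist a b ≤ diam (C i) :=
      dist_le_diam_of_mem (G.hK.isBounded.subset (hCK i)) ha hb
    have h4 : dist x x' ≤ dist x a + dist a b + dist b x' := dist_triangle4 _ _ _ _
    rw [dist_comm b x'] at h4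
    have := hκi i
    linarith
  · intro x hx
    obtain ⟨i, -, hi⟩ := Finset.exists_max_image Finset.univ (fun i => g ⟨x, hx⟩ i)
      ⟨0, Finset.mem_univ _⟩
    exact mem_iUnion.2 ⟨i, ⟨x, hx⟩, fun j => hi j (Finset.mem_univ _), rfl⟩
  · intro q hq hqp
    let J : Finset (Fin k) := Finset.univ.filter fun l =>
      ∃ z ∈ K, dist z (y l) ≤ r ∧ dist q z = D
    have hJ : ∀ l : J, ∃ z ∈ K, dist z (y l) ≤ r ∧ dist q z = D := fun l =>
      (Finset.mem_filter.1 l.2).2
    choose z hzK hzr hzD using hJ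
    have hfar : ∀ l, z l ∉ ball p ρ := fun l => far_of G.hρD (hzD l) hqp
    have hbad := hUg J g (mem_iInter.1 hgU J) q hq hqp (fun l => ⟨z l, hzK l, hfar l⟩)
      fun l => ⟨hzr l, hzD l⟩
    let A : J → Finset (Fin (n + 1)) := fun l => Finset.univ.filter fun i =>
      ∀ j, g ⟨z l, ⟨hzK l, hfar l⟩⟩ j ≤ g ⟨z l, ⟨hzK l, hfar l⟩⟩ i
    have hAne : ∀ l, (A l).Nonempty := by
      intro l
      obtain ⟨i, -, hi⟩ := Finset.exists_max_image Finset.univ
        (fun i => g ⟨z l, ⟨hzK l, hfar l⟩⟩ i) ⟨0, Finset.mem_univ _⟩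
      exact ⟨i, Finset.mem_filter.2 ⟨Finset.mem_univ _, fun j => hi j (Finset.mem_univ _)⟩⟩
    have hsum : ∑ l, ((A l).card - 1) < n - J.card + 1 := by
      by_contra hc
      push Not at hc
      refine hbad ⟨A, fun l => ⟨hAne l, fun i hi j hj => ?_⟩, hc⟩
      exact le_antisymm ((Finset.mem_filter.1 hj).2 i) ((Finset.mem_filter.1 hi).2 j)
    have hJn : J.card ≤ n := by
      have h1 : J.card ≤ k := by simpa using J.card_le_univ
      have h2 := G.hkn
      omega
    have hsum2 : ∑ l, (A l).card ≤ n := by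
      have h1 : ∑ l, (A l).card = ∑ l : J, ((A l).card - 1) + J.card := by
        have : ∀ l, (A l).card = ((A l).card - 1) + 1 := fun l => by
          have := (hAne l).card_pos
          omega
        calc ∑ l, (A l).card = ∑ l : J, (((A l).card - 1) + 1) :=
              Finset.sum_congr rfl fun l _ => this l
          _ = _ := by rw [Finset.sum_add_distrib]; simp
      omega
    have hun : (Finset.univ.biUnion A).card ≤ n := Finset.card_biUnion_le.trans hsum2
    obtain ⟨i, hi⟩ : ∃ i, i ∉ Finset.univ.biUnion A := by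
      by_contra hc
      push Not at hc
      have : Finset.univ.biUnion A = Finset.univ := Finset.eq_univ_iff_forall.2 hc
      rw [this] at hun
      simp at hun
    refine ⟨i, ?_⟩
    rintro _ ⟨x, hx, rfl⟩ hqx
    obtain ⟨l, hl⟩ := G.hnear q hq hqp x x.2.1 hqx
    have hlJ : l ∈ J := Finset.mem_filter.2 ⟨Finset.mem_univ _, x, x.2.1, hl, hqx⟩
    have hxz : (x : E) = z ⟨l, hlJ⟩ := G.unique hq hqp x.2.1 (hzK _) hqx (hzD _) hl (hzr ⟨l, hlJ⟩)
    apply hi
    refine Finset.mem_biUnion.2 ⟨⟨l, hlJ⟩, Finset.mem_univ _, Finset.mem_filter.2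
      ⟨Finset.mem_univ _, fun j => ?_⟩⟩
    have : x = ⟨z ⟨l, hlJ⟩, ⟨hzK _, hfar _⟩⟩ := Subtype.ext hxz
    rw [← this]
    exact hx j

/-- **Extension of a colouring over a small ball.** -/
theorem Good.extend (G : Good K D ρ r n p y)
    {C : Fin (n + 1) → Set E} (hC : ∀ i, IsClosed (C i)) (hCK : ∀ i, C i ⊆ K)
    (hCD : ∀ i, diam (C i) < D) (hcov : K \ ball p ρ ⊆ ⋃ i, C i) :
    ∃ C' : Fin (n + 1) → Set E, (∀ i, IsClosed (C' i)) ∧ (∀ i, C' i ⊆ K) ∧
      (∀ i, diam (C' i) < D) ∧ K ⊆ ⋃ i, C' i := by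
  obtain ⟨C', h1, h2, h3, h4, h5⟩ := G.exists_free hC hCK hCD hcov
  let B := K ∩ closedBall p ρ
  have hB : IsCompact B := G.hK.inter_right isClosed_closedBall
  have hC'c : ∀ i, IsCompact (C' i) := fun i => G.hK.of_isClosed_subset (h1 i) (h2 i)
  let O : Fin (n + 1) → Set E := fun i => {q | ∀ z ∈ C' i, dist q z ≠ D}
  have hO : ∀ i, IsOpen (O i) := by
    intro i
    rw [← isClosed_compl_iff]
    have : (O i)ᶜ = Prod.fst '' ((univ ×ˢ C' i) ∩ {x : E × E | dist x.1 x.2 = D}) := by
      ext q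
      simp only [O, mem_compl_iff, Set.mem_ofPred_eq, not_forall, not_not, mem_image, mem_inter_iff,
        mem_prod, mem_univ, true_and, Prod.exists, exists_and_right, exists_eq_right, exists_prop]
    rw [this]
    have hcl : IsClosed ((univ ×ˢ C' i) ∩ {x : E × E | dist x.1 x.2 = D}) :=
      (isClosed_univ.prod (h1 i)).inter (isClosed_eq (by fun_prop) continuous_const)
    -- projection along a compact set
    refine IsSeqClosed.isClosed ?_
    intro u a hu hua
    choose! x hx hxu using hu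
    have hxz : ∀ m, (x m).2 ∈ C' i := fun m => (hx m).1.2
    obtain ⟨b, hb, ψ, hψ, hψb⟩ := (hC'c i).tendsto_subseq hxz
    refine ⟨(a, b), ?_, rfl⟩
    refine hcl.mem_of_tendsto (f := fun m => x (ψ m)) (b := Filter.atTop) ?_
      (Filter.Eventually.of_forall fun m => hx (ψ m))
    have h6 : Filter.Tendsto (fun m => (x (ψ m)).1) Filter.atTop (nhds a) := by
      have := hua.comp hψ.tendsto_atTop
      refine this.congr fun m => ?_
      simp [hxu]
    exact (h6.prodMk_nhds hψb)
  obtain ⟨v, hv1, hv2, hv3⟩ := exists_subset_iUnion_closed_subset (s := B) (u := O)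
    hB.isClosed hO (fun x _ => Set.toFinite _) (by
      intro q hq
      obtain ⟨i, hi⟩ := h5 q hq.1 (mem_closedBall.1 hq.2)
      exact mem_iUnion.2 ⟨i, hi⟩)
  refine ⟨fun i => C' i ∪ (v i ∩ B), fun i => (h1 i).union ((hv2 i).inter hB.isClosed), ?_, ?_, ?_⟩
  · rintro i x (hx | hx)
    · exact h2 i hx
    · exact hx.2.1
  · intro i
    refine diam_lt_of_compact ((hC'c i).union (hB.inter_left (hv2 i))) G.hD ?_
    have key : ∀ x ∈ v i ∩ B, ∀ z ∈ C' i, dist x z < D := by
      intro x hx z hz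
      exact lt_of_le_of_ne (G.hdiam x hx.2.1 z (h2 i hz)) (hv3 i hx.1 z hz)
    rintro x (hx | hx) z (hz | hz)
    · exact lt_of_le_of_lt (dist_le_diam_of_mem (hC'c i).isBounded hx hz) (h3 i)
    · rw [dist_comm]; exact key z hz x hx
    · exact key x hx z hz
    · have h6 : dist x z ≤ dist x p + dist z p := dist_triangle_right _ _ _
      have h7 := mem_closedBall.1 hx.2.2
      have h8 := mem_closedBall.1 hz.2.2
      linarith [G.hρD]
  · intro x hx
    by_cases hxp : x ∈ ball p ρ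
    · have hxB : x ∈ B := ⟨hx, ball_subset_closedBall hxp⟩
      obtain ⟨i, hi⟩ := mem_iUnion.1 (hv1 hxB)
      exact mem_iUnion.2 ⟨i, Or.inr ⟨hi, hxB⟩⟩
    · obtain ⟨i, hi⟩ := mem_iUnion.1 (h4 ⟨hx, hxp⟩)
      exact mem_iUnion.2 ⟨i, Or.inl hi⟩

/-- `p` is a *tame* point of `K`: either all points of `K` near `p` have at most one partner, or
the points of `K` near `p` have separated partners and no common partner, and moreover either the
directions from `p` to its partners are linearly independent, or `p` has at most `n - m` partners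
and a neighbourhood of `p` in `K` embeds in `ℝ ^ m`. -/
def Tame (K : Set E) (D : ℝ) (n : ℕ) (p : E) : Prop :=
  (∃ δ > 0, ∀ q ∈ K, dist q p < δ → ∀ z ∈ K, ∀ z' ∈ K, dist q z = D → dist q z' = D → z = z') ∨
  (∃ δ > 0, (∀ q ∈ K, dist q p < δ → ∀ z ∈ K, ∀ z' ∈ K, dist q z = D → dist q z' = D → z ≠ z' →
      δ ≤ dist z z') ∧
    ∀ z ∈ K, ∀ q ∈ K, ∀ q' ∈ K, dist q p < δ → dist q' p < δ → dist q z = D → dist q' z = D →
      q = q') ∧
  ((LinearIndependent ℝ fun z : {z : E // z ∈ K ∧ dist p z = D} => p - z.1) ∨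
    ∃ m : ℕ, {z : E | z ∈ K ∧ dist p z = D}.encard + m ≤ n ∧
      ∃ ρ > 0, ∃ f : E → Fin m → ℝ, ContinuousOn f (K ∩ closedBall p ρ) ∧
        InjOn f (K ∩ closedBall p ρ))

/-- The parametrisation of the tuples by themselves. -/
theorem exists_par_of_tup (hK : IsCompact K) (hρD : 2 * ρ < D)
    (unique : ∀ {q z z' : E} {l : Fin k}, q ∈ K → dist q p ≤ ρ → z ∈ K → z' ∈ K →
      dist q z = D → dist q z' = D → dist z (y l) ≤ r → dist z' (y l) ≤ r → z = z')
    (unique' : ∀ {q q' z : E}, q ∈ K → q' ∈ K → z ∈ K → dist q z = D → dist q' z = D →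
      dist q p ≤ ρ → dist q' p ≤ ρ → q = q')
    (disj : ∀ {z : E} {l l' : Fin k}, dist z (y l) ≤ r → dist z (y l') ≤ r → l = l')
    (J : Finset (Fin k)) {s : ℕ} {π : Tup K D ρ r p y J → (Fin s → ℝ)}
    (hπ : Continuous π) (hπi : ∀ τ τ', π τ = π τ' → τ.1.1 = τ'.1.1) :
    ∃ (Q : Type) (_ : TopologicalSpace Q) (_ : CompactSpace Q)
      (π : Q → Fin s → ℝ) (Y : J → Q → E), Continuous π ∧ Function.Injective π ∧
      (∀ l, Continuous (Y l)) ∧ (∀ l τ, Y l τ ∈ K \ ball p ρ) ∧
      (∀ l l' τ τ', Y l τ = Y l' τ' → l = l' ∧ τ = τ') ∧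
      ∀ q ∈ K, dist q p ≤ ρ → ∀ z : J → E,
        (∀ l : J, z l ∈ K ∧ dist (z l) (y l) ≤ r ∧ dist q (z l) = D) → ∃ τ, ∀ l, Y l τ = z l := by
  have hinj : ∀ τ τ' : Tup K D ρ r p y J, τ.1.1 = τ'.1.1 → τ = τ' := by
    intro τ τ' h
    refine Subtype.ext (Prod.ext h (funext fun l => ?_))
    exact unique τ.2.1.1 τ.2.1.2 (τ.2.2 l).1 (τ'.2.2 l).1 (τ.2.2 l).2.2
      (by rw [h]; exact (τ'.2.2 l).2.2) (τ.2.2 l).2.1 (τ'.2.2 l).2.1
  refine ⟨Tup K D ρ r p y J, inferInstance,
    isCompact_iff_compactSpace.1 (isCompact_tup hK D ρ r p y J), π, fun l τ => τ.1.2 l, hπ,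
    fun τ τ' h => hinj τ τ' (hπi _ _ h), fun l => ?_, fun l τ => ?_, ?_, ?_⟩
  · exact (continuous_apply l).comp (continuous_snd.comp continuous_subtype_val)
  · exact ⟨(τ.2.2 l).1, far_of hρD (τ.2.2 l).2.2 τ.2.1.2⟩
  · intro l l' τ τ' h0
    have h1 : τ.1.2 l = τ'.1.2 l' := h0
    have h2 : l = l' := Subtype.ext (disj (τ.2.2 l).2.1 (by rw [h1]; exact (τ'.2.2 l').2.1))
    subst h2
    refine ⟨rfl, hinj τ τ' ?_⟩
    exact unique' τ.2.1.1 τ'.2.1.1 (τ.2.2 l).1 (τ.2.2 l).2.2
      (by rw [h1]; exact (τ'.2.2 l).2.2) τ.2.1.2 τ'.2.1.2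
  · intro q hq hqp z hz
    exact ⟨⟨(q, z), ⟨hq, hqp⟩, hz⟩, fun l => rfl⟩

/-- The empty parametrisation. -/
theorem exists_par_empty (J : Finset (Fin k)) (hJ : J = ∅) (s : ℕ) :
    ∃ (Q : Type) (_ : TopologicalSpace Q) (_ : CompactSpace Q)
      (π : Q → Fin s → ℝ) (Y : J → Q → E), Continuous π ∧ Function.Injective π ∧
      (∀ l, Continuous (Y l)) ∧ (∀ l τ, Y l τ ∈ K \ ball p ρ) ∧
      (∀ l l' τ τ', Y l τ = Y l' τ' → l = l' ∧ τ = τ') ∧
      ∀ q ∈ K, dist q p ≤ ρ → ∀ z : J → E,
        (∀ l : J, z l ∈ K ∧ dist (z l) (y l) ≤ r ∧ dist q (z l) = D) → ∃ τ, ∀ l, Y l τ = z l := by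
  subst hJ
  refine ⟨Unit, inferInstance, inferInstance, fun _ => 0, fun l => absurd l.2 (Finset.notMem_empty _),
    continuous_const, fun _ _ _ => rfl, fun l => absurd l.2 (Finset.notMem_empty _),
    fun l => absurd l.2 (Finset.notMem_empty _), fun l => absurd l.2 (Finset.notMem_empty _), fun q _ _ z _ =>
      ⟨(), fun l => absurd l.2 (Finset.notMem_empty _)⟩⟩

/-- The parametrisation by the partners, for a point with a single partner. -/
theorem exists_par_single (hK : IsCompact K) (hdiam : ∀ x ∈ K, ∀ y ∈ K, dist x y ≤ D)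
    (hρD : 2 * ρ < D) {y₀ : E} (hy₀ : p ≠ y₀) {c : ℝ}
    (hc : ∀ J : Finset (Fin 1), ∀ w ∈ Submodule.span ℝ (range fun _ : J => y₀ - p),
      (∀ l ∈ J, |⟪y₀ - p, w⟫| ≤ c * ‖w‖) → w = 0) (hrc : r + ρ ≤ c)
    (J : Finset (Fin 1)) :
    ∃ (Q : Type) (_ : TopologicalSpace Q) (_ : CompactSpace Q)
      (π : Q → Fin (finrank ℝ E - J.card) → ℝ) (Y : J → Q → E), Continuous π ∧
      Function.Injective π ∧
      (∀ l, Continuous (Y l)) ∧ (∀ l τ, Y l τ ∈ K \ ball p ρ) ∧
      (∀ l l' τ τ', Y l τ = Y l' τ' → l = l' ∧ τ = τ') ∧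
      ∀ q ∈ K, dist q p ≤ ρ → ∀ z : J → E,
        (∀ l : J, z l ∈ K ∧ dist (z l) y₀ ≤ r ∧ dist q (z l) = D) → ∃ τ, ∀ l, Y l τ = z l := by
  rcases J.eq_empty_or_nonempty with hJ | ⟨l₀, hl₀⟩
  · exact exists_par_empty (y := fun _ => y₀) J hJ _
  · have hu : LinearIndependent ℝ fun _ : Fin 1 => y₀ - p :=
      linearIndependent_unique_iff.2 (sub_ne_zero.2 hy₀.symm)
    obtain ⟨π, hπ, hπi⟩ := exists_coord hu J
    let Z : Set E := Prod.fst '' Tup K D r ρ y₀ (fun _ : Fin 1 => p) J
    have hZ : IsCompact Z :=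
      (isCompact_tup hK D r ρ y₀ (fun _ : Fin 1 => p) J).image continuous_fst
    have hZK : ∀ z ∈ Z, z ∈ K \ ball p ρ := by
      rintro _ ⟨τ, hτ, rfl⟩
      refine ⟨hτ.1.1, ?_⟩
      obtain ⟨h1, h2, h3⟩ := hτ.2 ⟨l₀, hl₀⟩
      exact far_of hρD (by rw [dist_comm]; exact h3) h2
    refine ⟨Z, inferInstance, isCompact_iff_compactSpace.1 hZ, fun z => π z, fun _ z => z,
      hπ.comp continuous_subtype_val, ?_, fun _ => continuous_subtype_val,
      fun _ z => hZK z z.2, ?_, ?_⟩
    · rintro ⟨a, ha⟩ ⟨a', ha'⟩ h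
      have h1 : π a = π a' := h
      have h2 := hπi _ _ h1
      obtain ⟨τ, hτ, rfl⟩ := ha
      obtain ⟨τ', hτ', rfl⟩ := ha'
      have h3 : τ.1 = τ'.1 :=
        fst_eq_of_mem_span (y := fun _ : Fin 1 => p) hdiam hc hrc hτ hτ' h2
      exact Subtype.ext h3
    · rintro ⟨l, hl⟩ ⟨l', hl'⟩ τ τ' h
      have h' : (τ : E) = (τ' : E) := h
      have h2 : l = l' := Subsingleton.elim _ _
      subst h2
      exact ⟨rfl, Subtype.ext h'⟩
    · intro q hq hqp z hz
      refine ⟨⟨z ⟨l₀, hl₀⟩, (z ⟨l₀, hl₀⟩, fun _ => q), ⟨⟨(hz _).1, (hz _).2.1⟩, fun _ =>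
        ⟨hq, hqp, by rw [dist_comm]; exact (hz _).2.2⟩⟩, rfl⟩, fun l => ?_⟩
      obtain ⟨l, hl⟩ := l
      have h2 : l = l₀ := Subsingleton.elim _ _
      subst h2
      rfl

/-- A subset embedded in `ℝ ^ m` can be parametrised by `ℝ ^ s`, `s ≥ m`. -/
theorem exists_param {m s : ℕ} (hms : m ≤ s) {f : E → Fin m → ℝ} {S : Set E}
    (hf : ContinuousOn f S) (hfi : InjOn f S) {Q : Type} [TopologicalSpace Q] (g : Q → E)
    (hg : Continuous g) (hgS : ∀ q, g q ∈ S) :
    ∃ π : Q → (Fin s → ℝ), Continuous π ∧ ∀ q q', π q = π q' → g q = g q' := by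
  refine ⟨fun q i => if h : (i : ℕ) < m then f (g q) ⟨i, h⟩ else 0, ?_, ?_⟩
  · refine continuous_pi fun i => ?_
    by_cases h : (i : ℕ) < m
    · have h2 : Continuous fun q => f (g q) := hf.comp_continuous hg hgS
      have h3 : (fun q => if h : (i : ℕ) < m then f (g q) ⟨i, h⟩ else 0) =
          fun q => f (g q) ⟨i, h⟩ := by
        funext q; rw [dif_pos h]
      rw [h3]
      exact (continuous_apply (⟨i, h⟩ : Fin m)).comp h2
    · have h3 : (fun q => if h : (i : ℕ) < m then f (g q) ⟨i, h⟩ else 0) =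
          fun _ => (0 : ℝ) := by
        funext q; rw [dif_neg h]
      rw [h3]
      exact continuous_const
  · intro q q' h
    refine hfi (hgS q) (hgS q') ?_
    ext i
    have h3 := congrFun h ⟨i, lt_of_lt_of_le i.2 hms⟩
    simp only [i.2, dif_pos] at h3
    exact h3

/-- Small constants exist at a point near which all points have at most one partner. -/
theorem exists_good_single {K : Set E} (hK : IsCompact K) {D : ℝ} (hD : 0 < D)
    (hdiam : ∀ x ∈ K, ∀ y ∈ K, dist x y ≤ D) {n : ℕ} (hn : finrank ℝ E = n)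
    {p : E} (hp : p ∈ K) {δ : ℝ} (hδ : 0 < δ)
    (hsing : ∀ q ∈ K, dist q p < δ → ∀ z ∈ K, ∀ z' ∈ K, dist q z = D → dist q z' = D → z = z') :
    ∃ (k : ℕ) (y : Fin k → E) (ρ r : ℝ), Good K D ρ r n p y := by
  by_cases hex : ∃ y₀ ∈ K, dist p y₀ = D
  · obtain ⟨y₀, hy₀, hpy⟩ := hex
    have hne : p ≠ y₀ := by
      rintro rfl
      rw [dist_self] at hpy
      linarith
    have hu : LinearIndependent ℝ fun _ : Fin 1 => y₀ - p :=
      linearIndependent_unique_iff.2 (sub_ne_zero.2 hne.symm)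
    obtain ⟨c, hc0, hc⟩ := span_const_all fun _ : Fin 1 => y₀ - p
    obtain ⟨ρ₀, hρ₀, hnear⟩ := exists_near_partner hK hp (r := c / 2) (by positivity)
      (y := fun _ : Fin 1 => y₀) (D := D) (fun z hz hpz =>
        ⟨0, hsing p hp (by rw [dist_self]; exact hδ) z hz y₀ hy₀ hpz hpy⟩)
    refine ⟨1, fun _ => y₀, min ρ₀ (min (δ / 2) (min (c / 2) (D / 4))), c / 2, ?_⟩
    have e1 : min ρ₀ (min (δ / 2) (min (c / 2) (D / 4))) ≤ ρ₀ := min_le_left _ _
    have e2 : min ρ₀ (min (δ / 2) (min (c / 2) (D / 4))) ≤ δ / 2 :=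
      (min_le_right _ _).trans (min_le_left _ _)
    have e3 : min ρ₀ (min (δ / 2) (min (c / 2) (D / 4))) ≤ c / 2 :=
      (min_le_right _ _).trans ((min_le_right _ _).trans (min_le_left _ _))
    have e4 : min ρ₀ (min (δ / 2) (min (c / 2) (D / 4))) ≤ D / 4 :=
      (min_le_right _ _).trans ((min_le_right _ _).trans (min_le_right _ _))
    exact
      { hK := hK
        hD := hD
        hdiam := hdiam
        hp := hp
        hkn := by
          have := hu.fintype_card_le_finrank
          simpa [hn] using this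
        hρ := by positivity
        hρD := by linarith
        unique := fun {q z z' l} hq hqp hz hz' h1 h2 _ _ =>
          hsing q hq (by linarith) z hz z' hz' h1 h2
        hpar := by
          subst hn
          exact exists_par_single hK hdiam (by linarith) hne hc (by linarith)
        hnear := fun q hq hqp z hz hqz => hnear q hq (hqp.trans e1) z hz hqz }
  · push Not at hex
    obtain ⟨ρ₀, hρ₀, hnear⟩ := exists_near_partner hK hp (r := 1) one_pos
      (y := fun l : Fin 0 => p) (D := D) (fun z hz hpz => absurd hpz (hex z hz))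
    refine ⟨0, fun _ => p, min ρ₀ (D / 4), 1, ?_⟩
    have e1 : min ρ₀ (D / 4) ≤ ρ₀ := min_le_left _ _
    have e2 : min ρ₀ (D / 4) ≤ D / 4 := min_le_right _ _
    exact
      { hK := hK
        hD := hD
        hdiam := hdiam
        hp := hp
        hkn := Nat.zero_le _
        hρ := by positivity
        hρD := by linarith
        unique := fun {q z z' l} => l.elim0
        hpar := fun J => exists_par_empty (y := fun _ : Fin 0 => p) J (Finset.eq_empty_of_isEmpty J) _
        hnear := fun q hq hqp z hz hqz => hnear q hq (hqp.trans e1) z hz hqz }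

/-- Small constants exist at a tame point. -/
theorem exists_good {K : Set E} (hK : IsCompact K) {D : ℝ} (hD : 0 < D)
    (hdiam : ∀ x ∈ K, ∀ y ∈ K, dist x y ≤ D) {n : ℕ} (hn : finrank ℝ E = n)
    {p : E} (hp : p ∈ K) (ht : Tame K D n p) :
    ∃ (k : ℕ) (y : Fin k → E) (ρ r : ℝ), Good K D ρ r n p y := by
  rcases ht with ⟨δ, hδ, ht⟩ | ⟨⟨δ, hδ, hsep, hsep'⟩, ht⟩
  · exact exists_good_single hK hD hdiam hn hp hδ ht
  have hfin : Finite {z : E // z ∈ K ∧ dist p z = D} := by
    rcases ht with ht | ⟨m, hm, -⟩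
    · exact ht.finite
    · have h1 : {z : E | z ∈ K ∧ dist p z = D}.encard ≤ n := le_trans le_self_add hm
      exact (Set.finite_of_encard_le_coe h1).to_subtype
  have := Fintype.ofFinite {z : E // z ∈ K ∧ dist p z = D}
  let e := (Fintype.equivFin {z : E // z ∈ K ∧ dist p z = D}).symm
  let y : Fin (Fintype.card {z : E // z ∈ K ∧ dist p z = D}) → E := fun l => (e l).1
  have hyi : Function.Injective y := fun a b h => e.injective (Subtype.ext h)
  have hdisj : ∀ {r : ℝ}, 2 * r < δ → ∀ {z : E}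
      {l l' : Fin (Fintype.card {z : E // z ∈ K ∧ dist p z = D})},
      dist z (y l) ≤ r → dist z (y l') ≤ r → l = l' := by
    intro r hr z l l' h3 h4
    by_contra hne
    have h5 := hsep p hp (by rw [dist_self]; exact hδ) (y l) (e l).2.1 (y l') (e l').2.1
      (e l).2.2 (e l').2.2 (fun h => hne (hyi h))
    have h6 : dist (y l) (y l') ≤ dist z (y l) + dist z (y l') := dist_triangle_left _ _ _
    linarith
  have huniq : ∀ {r ρ : ℝ}, 2 * r < δ → ρ < δ → ∀ {q z z' : E}
      {l : Fin (Fintype.card {z : E // z ∈ K ∧ dist p z = D})}, q ∈ K → dist q p ≤ ρ → z ∈ K →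
      z' ∈ K → dist q z = D → dist q z' = D → dist z (y l) ≤ r → dist z' (y l) ≤ r → z = z' := by
    intro r ρ hr hρ q z z' l hq hqp hz hz' h1 h2 h3 h4
    by_contra hne
    have h5 := hsep q hq (lt_of_le_of_lt hqp hρ) z hz z' hz' h1 h2 hne
    have h6 : dist z z' ≤ dist z (y l) + dist z' (y l) := dist_triangle_right _ _ _
    linarith
  have hynear : ∀ z ∈ K, dist p z = D → ∃ l, z = y l := fun z hz hpz =>
    ⟨e.symm ⟨z, hz, hpz⟩, by simp [y]⟩
  rcases ht with hind | ⟨m, hm, ρ₁, hρ₁, f, hf, hfi⟩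
  · have hu : LinearIndependent ℝ fun l => p - y l := hind.comp e e.injective
    obtain ⟨c, hc0, hc⟩ := span_const_all fun l => p - y l
    set r := min (δ / 4) (c / 2) with hr
    have hr0 : 0 < r := by positivity
    obtain ⟨ρ₀, hρ₀, hnear⟩ := exists_near_partner hK hp hr0 (y := y) (D := D) hynear
    refine ⟨_, y, min ρ₀ (min (δ / 4) (min (c / 2) (D / 4))), r, ?_⟩
    have e1 : min ρ₀ (min (δ / 4) (min (c / 2) (D / 4))) ≤ ρ₀ := min_le_left _ _
    have e2 : min ρ₀ (min (δ / 4) (min (c / 2) (D / 4))) ≤ δ / 4 :=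
      (min_le_right _ _).trans (min_le_left _ _)
    have e3 : min ρ₀ (min (δ / 4) (min (c / 2) (D / 4))) ≤ c / 2 :=
      (min_le_right _ _).trans ((min_le_right _ _).trans (min_le_left _ _))
    have e4 : min ρ₀ (min (δ / 4) (min (c / 2) (D / 4))) ≤ D / 4 :=
      (min_le_right _ _).trans ((min_le_right _ _).trans (min_le_right _ _))
    have e5 : r ≤ δ / 4 := min_le_left _ _
    have e6 : r ≤ c / 2 := min_le_right _ _
    exact
      { hK := hK
        hD := hD
        hdiam := hdiam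
        hp := hp
        hkn := by
          have := hu.fintype_card_le_finrank
          simpa [hn] using this
        hρ := by positivity
        hρD := by linarith
        unique := huniq (by linarith) (by linarith)
        hpar := by
          intro J
          have hcoord := exists_coord hu J
          rw [hn] at hcoord
          obtain ⟨π, hπ, hπi⟩ := hcoord
          refine exists_par_of_tup hK (by linarith) (huniq (by linarith) (by linarith))
            (fun {q q' z} hq hq' hz h1 h2 h3 h4 =>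
              hsep' z hz q hq q' hq' (by linarith) (by linarith) h1 h2)
            (hdisj (by linarith)) J (π := fun τ => π τ.1.1)
            (hπ.comp (continuous_fst.comp continuous_subtype_val)) ?_
          intro τ τ' h
          exact fst_eq_of_mem_span hdiam hc (by linarith) τ.2 τ'.2 (hπi _ _ h)
        hnear := fun q hq hqp z hz hqz => hnear q hq (hqp.trans e1) z hz hqz }
  · have hr0 : 0 < δ / 4 := by positivity
    obtain ⟨ρ₀, hρ₀, hnear⟩ := exists_near_partner hK hp hr0 (y := y) (D := D) hynear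
    have hcard : Fintype.card {z : E // z ∈ K ∧ dist p z = D} + m ≤ n := by
      have h1 : {z : E | z ∈ K ∧ dist p z = D}.encard =
          Fintype.card {z : E // z ∈ K ∧ dist p z = D} := by
        exact ENat.card_eq_coe_fintype_card (α := {z : E // z ∈ K ∧ dist p z = D})
      rw [h1] at hm
      exact_mod_cast hm
    refine ⟨_, y, min ρ₀ (min (δ / 4) (min ρ₁ (D / 4))), δ / 4, ?_⟩
    have e1 : min ρ₀ (min (δ / 4) (min ρ₁ (D / 4))) ≤ ρ₀ := min_le_left _ _
    have e2 : min ρ₀ (min (δ / 4) (min ρ₁ (D / 4))) ≤ δ / 4 :=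
      (min_le_right _ _).trans (min_le_left _ _)
    have e3 : min ρ₀ (min (δ / 4) (min ρ₁ (D / 4))) ≤ ρ₁ :=
      (min_le_right _ _).trans ((min_le_right _ _).trans (min_le_left _ _))
    have e4 : min ρ₀ (min (δ / 4) (min ρ₁ (D / 4))) ≤ D / 4 :=
      (min_le_right _ _).trans ((min_le_right _ _).trans (min_le_right _ _))
    exact
      { hK := hK
        hD := hD
        hdiam := hdiam
        hp := hp
        hkn := by omega
        hρ := by positivity
        hρD := by linarith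
        unique := huniq (by linarith) (by linarith)
        hpar := by
          intro J
          have hJm : m ≤ n - J.card := by
            have h1 : J.card ≤ Fintype.card {z : E // z ∈ K ∧ dist p z = D} := by
              simpa using J.card_le_univ
            omega
          obtain ⟨π, hπ, hπi⟩ := exists_param hJm hf hfi
            (fun τ : Tup K D (min ρ₀ (min (δ / 4) (min ρ₁ (D / 4)))) (δ / 4) p y J => τ.1.1)
            (continuous_fst.comp continuous_subtype_val)
            fun τ => ⟨τ.2.1.1, mem_closedBall.2 (τ.2.1.2.trans e3)⟩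
          exact exists_par_of_tup hK (by linarith) (huniq (by linarith) (by linarith))
            (fun {q q' z} hq hq' hz h1 h2 h3 h4 =>
              hsep' z hz q hq q' hq' (by linarith) (by linarith) h1 h2)
            (hdisj (by linarith)) J hπ hπi
        hnear := fun q hq hqp z hz hqz => hnear q hq (hqp.trans e1) z hz hqz }

end Pool.Agent.Lib_helper24.BorsukGen
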